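import Mathlib.Topology.Sheaves.Presheaf
import Mathlib.Algebra.Order.Ring.Star
import Mathlib.Algebra.Order.Star.Real
import Mathlib.LinearAlgebra.Complex.FiniteDimensional
import Mathlib.Analysis.CStarAlgebra.Classes
import Mathlib.Analysis.Complex.Convex
import Mathlib.Analysis.Complex.LocallyUniformLimit
import Mathlib.Analysis.SpecialFunctions.Integrals.Basic
import Mathlib.Combinatorics.SimpleGraph.Basic
import Mathlib.Analysis.SpecialFunctions.PolarCoord
import Mathlib.Analysis.Real.Pi.Bounds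
import Mathlib.RingTheory.PiTensorProduct
import Mathlib.Topology.Separation.CompletelyRegular
import Mathlib.Tactic.Algebra.Basic

-- ======== part 0: formerly Pool.Agent.MP_f04e08_an.Bump
section MrgPart0

set_option autoImplicit false

open Set Metric Complex Filter
open scoped Real Topology

namespace Pool.Agent.MP_f04e08_an

lemma le_norm_add_left {b : ℝ} {u : ℂ} (hu : 0 ≤ u.re) : b ≤ ‖(b : ℂ) + u‖ := by
  refine le_trans ?_ (Complex.re_le_norm _)
  simp [hu]

lemma norm_le_norm_add {b : ℝ} (hb : 0 ≤ b) {u : ℂ} (hu : 0 ≤ u.re) : ‖u‖ ≤ ‖(b : ℂ) + u‖ := by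
  apply (pow_le_pow_iff_left₀ (norm_nonneg _) (norm_nonneg _) two_ne_zero).mp
  rw [Complex.sq_norm, Complex.sq_norm, Complex.normSq_apply, Complex.normSq_apply]
  simp
  nlinarith

lemma add_ne_zero' {b : ℝ} (hb : 0 < b) {u : ℂ} (hu : 0 ≤ u.re) : (b : ℂ) + u ≠ 0 := by
  intro h
  have := le_norm_add_left (b := b) hu
  rw [h, norm_zero] at this
  linarith

lemma norm_log_one_add_le' {s : ℂ} (hs : 0 ≤ s.re) : ‖Complex.log (1 + s)‖ ≤ ‖s‖ := by
  have hconv : Convex ℝ {w : ℂ | 0 ≤ w.re} := convex_halfSpace_re_ge 0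
  have hder : ∀ w ∈ {w : ℂ | 0 ≤ w.re},
      HasDerivWithinAt (fun w => Complex.log (1 + w)) (1 + w)⁻¹ {w : ℂ | 0 ≤ w.re} w := by
    intro w hw
    have hw' : 0 ≤ w.re := hw
    have h1 : 1 + w ∈ slitPlane := by
      left
      simp
      linarith
    have := ((hasDerivAt_id w).const_add 1).clog h1
    simpa using this.hasDerivWithinAt
  have hb : ∀ w ∈ {w : ℂ | 0 ≤ w.re}, ‖(1 + w)⁻¹‖ ≤ 1 := by
    intro w hw
    rw [norm_inv]
    apply inv_le_one_of_one_le₀
    have := le_norm_add_left (b := 1) hw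
    simpa using this
  have := hconv.norm_image_sub_le_of_norm_hasDerivWithin_le hder hb (x := 0) (y := s)
    (by simp) hs
  simpa using this

/-- The logarithmic transition function. -/
noncomputable def psi (a b : ℝ) (u : ℂ) : ℂ := Complex.log (((a : ℂ) + u) / ((b : ℂ) + u))

lemma ratio_eq {a b : ℝ} (hb : 0 < b) {u : ℂ} (hu : 0 ≤ u.re) :
    ((a : ℂ) + u) / ((b : ℂ) + u) = 1 + ((a - b : ℝ) : ℂ) / ((b : ℂ) + u) := by
  have := add_ne_zero' hb hu
  field_simp
  push_cast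
  ring

lemma re_frac_nonneg {a b : ℝ} (hb : 0 < b) (hab : b ≤ a) {u : ℂ} (hu : 0 ≤ u.re) :
    0 ≤ (((a - b : ℝ) : ℂ) / ((b : ℂ) + u)).re := by
  rw [div_eq_mul_inv, Complex.re_ofReal_mul, Complex.inv_re]
  apply mul_nonneg (by linarith)
  apply div_nonneg _ (Complex.normSq_nonneg _)
  simp
  linarith

lemma hasDerivAt_psi {a b : ℝ} (hb : 0 < b) (hab : b ≤ a) {u : ℂ} (hu : 0 ≤ u.re) :
    HasDerivAt (psi a b) (-((a - b : ℝ) : ℂ) / (((a : ℂ) + u) * ((b : ℂ) + u))) u := by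
  have h1 := add_ne_zero' hb hu
  have h2 := add_ne_zero' (hb.trans_le hab) hu
  have h3 : ((a : ℂ) + u) / ((b : ℂ) + u) ∈ slitPlane := by
    left
    rw [ratio_eq hb hu, Complex.add_re, Complex.one_re]
    have := re_frac_nonneg hb hab hu
    linarith
  have h4 := (((hasDerivAt_id u).const_add (a : ℂ)).div
    ((hasDerivAt_id u).const_add (b : ℂ)) h1).clog h3
  have e : -((a - b : ℝ) : ℂ) / (((a : ℂ) + u) * ((b : ℂ) + u)) =
      (1 * ((b : ℂ) + id u) - ((a : ℂ) + id u) * 1) / ((b : ℂ) + id u) ^ 2 /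
        (((a : ℂ) + id u) / ((b : ℂ) + id u)) := by
    simp only [id]
    field_simp
    push_cast
    ring
  rw [e]
  exact h4

lemma psi_re {a b : ℝ} (hb : 0 < b) (hab : b ≤ a) {u : ℂ} (hu : 0 ≤ u.re) :
    0 ≤ (psi a b u).re ∧ (psi a b u).re ≤ Real.log (a / b) := by
  have h1 := add_ne_zero' hb hu
  have h2 := add_ne_zero' (hb.trans_le hab) hu
  have h1' : 0 < ‖(b : ℂ) + u‖ := norm_pos_iff.mpr h1
  have h2' : 0 < ‖(a : ℂ) + u‖ := norm_pos_iff.mpr h2
  have ha : 0 < a := hb.trans_le hab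
  unfold psi
  rw [Complex.log_re, norm_div]
  constructor
  · apply Real.log_nonneg
    rw [one_le_div h1']
    apply (pow_le_pow_iff_left₀ (norm_nonneg _) (norm_nonneg _) two_ne_zero).mp
    rw [Complex.sq_norm, Complex.sq_norm, Complex.normSq_apply, Complex.normSq_apply]
    simp
    nlinarith
  · apply Real.log_le_log (by positivity)
    rw [div_le_div_iff₀ h1' hb]
    apply (pow_le_pow_iff_left₀ (by positivity) (by positivity) two_ne_zero).mp
    rw [mul_pow, mul_pow, Complex.sq_norm, Complex.sq_norm, Complex.normSq_apply,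
      Complex.normSq_apply]
    simp
    have e1 : 0 ≤ a * b * u.re * (a - b) := by
      have : 0 ≤ a - b := by linarith
      positivity
    have e2 : 0 ≤ (u.re ^ 2 + u.im ^ 2) * (a ^ 2 - b ^ 2) := by
      have : 0 ≤ a ^ 2 - b ^ 2 := by nlinarith
      positivity
    nlinarith

lemma psi_im (a b : ℝ) (u : ℂ) : |(psi a b u).im| ≤ π := by
  unfold psi
  rw [Complex.log_im]
  exact Complex.abs_arg_le_pi _

lemma norm_psi_le {a b : ℝ} (hb : 0 < b) (hab : b ≤ a) {u : ℂ} (hu : 0 ≤ u.re) {r : ℝ}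
    (hr : 0 < r) (hru : r ≤ ‖u‖) : ‖psi a b u‖ ≤ a / r := by
  unfold psi
  rw [ratio_eq hb hu]
  refine (norm_log_one_add_le' (re_frac_nonneg hb hab hu)).trans ?_
  rw [norm_div, Complex.norm_real, Real.norm_eq_abs, abs_of_nonneg (by linarith)]
  have := norm_le_norm_add hb.le hu
  apply div_le_div₀ (by linarith) (by linarith) hr (by linarith)

/-- The bump at the boundary point `ζ` between the scales `exp (-L)` and `exp (-2 L)`. -/
noncomputable def bump (L : ℝ) (ζ z : ℂ) : ℂ :=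
  psi (Real.exp (-L)) (Real.exp (-L) ^ 2) (1 - (starRingEnd ℂ) ζ * z) / L

/-- The derivative of the bump. -/
noncomputable def dbump (L : ℝ) (ζ z : ℂ) : ℂ :=
  (-((Real.exp (-L) - Real.exp (-L) ^ 2 : ℝ) : ℂ) /
    ((((Real.exp (-L) : ℝ) : ℂ) + (1 - (starRingEnd ℂ) ζ * z)) *
      (((Real.exp (-L) ^ 2 : ℝ) : ℂ) + (1 - (starRingEnd ℂ) ζ * z))) * (-(starRingEnd ℂ) ζ)) / L

lemma exp_neg_le_half {L : ℝ} (hL : 1 ≤ L) : Real.exp (-L) ≤ 1 / 2 := by
  rw [Real.exp_neg]
  have := Real.add_one_le_exp L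
  rw [inv_le_comm₀ (Real.exp_pos _) (by norm_num)]
  norm_num
  linarith

lemma sq_le_self' {L : ℝ} (hL : 1 ≤ L) : Real.exp (-L) ^ 2 ≤ Real.exp (-L) := by
  have := exp_neg_le_half hL
  have := Real.exp_pos (-L)
  nlinarith

lemma re_u_nonneg {ζ z : ℂ} (hζ : ‖ζ‖ = 1) (hz : ‖z‖ ≤ 1) : 0 ≤ (1 - (starRingEnd ℂ) ζ * z).re := by
  have h1 := Complex.re_le_norm ((starRingEnd ℂ) ζ * z)
  rw [norm_mul, Complex.norm_conj, hζ, one_mul] at h1
  rw [Complex.sub_re, Complex.one_re]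
  linarith

lemma norm_u {ζ : ℂ} (hζ : ‖ζ‖ = 1) (z : ℂ) : ‖1 - (starRingEnd ℂ) ζ * z‖ = ‖z - ζ‖ := by
  have h1 : (starRingEnd ℂ) ζ * ζ = 1 := by
    rw [Complex.conj_mul', hζ]
    simp
  have : 1 - (starRingEnd ℂ) ζ * z = (starRingEnd ℂ) ζ * (ζ - z) := by
    rw [mul_sub, h1]
  rw [this, norm_mul, Complex.norm_conj, hζ, one_mul, norm_sub_rev]

lemma hasDerivAt_bump {L : ℝ} (hL : 1 ≤ L) {ζ z : ℂ} (hζ : ‖ζ‖ = 1) (hz : ‖z‖ ≤ 1) :
    HasDerivAt (bump L ζ) (dbump L ζ z) z := by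
  have h1 := hasDerivAt_psi (a := Real.exp (-L)) (b := Real.exp (-L) ^ 2) (by positivity)
    (sq_le_self' hL) (re_u_nonneg hζ hz)
  have h2 : HasDerivAt (fun w => 1 - (starRingEnd ℂ) ζ * w) (-(starRingEnd ℂ) ζ) z := by
    simpa using ((hasDerivAt_id z).const_mul ((starRingEnd ℂ) ζ)).const_sub 1
  exact (h1.comp z h2).div_const (L : ℂ)

lemma norm_dbump {L : ℝ} (hL : 1 ≤ L) {ζ : ℂ} (hζ : ‖ζ‖ = 1) (z : ℂ) :
    ‖dbump L ζ z‖ = (Real.exp (-L) - Real.exp (-L) ^ 2) /
      (‖((Real.exp (-L) : ℝ) : ℂ) + (1 - (starRingEnd ℂ) ζ * z)‖ *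
        ‖((Real.exp (-L) ^ 2 : ℝ) : ℂ) + (1 - (starRingEnd ℂ) ζ * z)‖) / L := by
  unfold dbump
  rw [norm_div, norm_mul, norm_div, norm_neg, norm_neg, Complex.norm_conj, hζ, mul_one, norm_mul,
    Complex.norm_real, Complex.norm_real, Real.norm_eq_abs, Real.norm_eq_abs,
    abs_of_nonneg (sub_nonneg.mpr (sq_le_self' hL)), abs_of_pos (by linarith)]

lemma norm_dbump_le_aux {L : ℝ} (hL : 1 ≤ L) {ζ z : ℂ} (hζ : ‖ζ‖ = 1) (hz : ‖z‖ ≤ 1) :
    ‖dbump L ζ z‖ ≤ 1 / (‖((Real.exp (-L) ^ 2 : ℝ) : ℂ) + (1 - (starRingEnd ℂ) ζ * z)‖) / L := by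
  rw [norm_dbump hL hζ]
  have hu := re_u_nonneg hζ hz
  have h1 := le_norm_add_left (b := Real.exp (-L)) hu
  have h2 := le_norm_add_left (b := Real.exp (-L) ^ 2) hu
  have h3 := Real.exp_pos (-L)
  have h4 : 0 < Real.exp (-L) ^ 2 := by positivity
  gcongr ?_ / L
  rw [div_le_div_iff₀ (by apply mul_pos <;> linarith) (by linarith)]
  nlinarith

lemma norm_dbump_le₁ {L : ℝ} (hL : 1 ≤ L) {ζ z : ℂ} (hζ : ‖ζ‖ = 1) (hz : ‖z‖ ≤ 1) :
    ‖dbump L ζ z‖ ≤ 2 * (1 / (L * (Real.exp (-L) ^ 2 + ‖z - ζ‖))) := by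
  refine (norm_dbump_le_aux hL hζ hz).trans ?_
  have hu := re_u_nonneg hζ hz
  have h2 := le_norm_add_left (b := Real.exp (-L) ^ 2) hu
  have h3 := norm_le_norm_add (b := Real.exp (-L) ^ 2) (by positivity) hu
  rw [norm_u hζ] at h3
  have h4 : 0 < Real.exp (-L) ^ 2 := by positivity
  have h5 := norm_nonneg (z - ζ)
  rw [div_div, mul_one_div, div_le_div_iff₀ (by apply mul_pos <;> linarith)
    (by apply mul_pos <;> linarith)]
  nlinarith

lemma norm_dbump_le₂ {L : ℝ} (hL : 1 ≤ L) {ζ z : ℂ} (hζ : ‖ζ‖ = 1) (hz : ‖z‖ ≤ 1) :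
    ‖dbump L ζ z‖ ≤ 1 / Real.exp (-L) ^ 2 := by
  refine (norm_dbump_le_aux hL hζ hz).trans ?_
  have hu := re_u_nonneg hζ hz
  have h2 := le_norm_add_left (b := Real.exp (-L) ^ 2) hu
  have h4 : 0 < Real.exp (-L) ^ 2 := by positivity
  refine (div_le_self (by positivity) hL).trans ?_
  exact one_div_le_one_div_of_le h4 h2

lemma norm_dbump_le₃ {L : ℝ} (hL : 1 ≤ L) {ζ z : ℂ} (hζ : ‖ζ‖ = 1) (hz : ‖z‖ ≤ 1) {r : ℝ}
    (hr : 0 < r) (hrz : r ≤ ‖z - ζ‖) : ‖dbump L ζ z‖ ≤ Real.exp (-L) / r ^ 2 := by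
  rw [norm_dbump hL hζ]
  have hu := re_u_nonneg hζ hz
  have h1 := norm_le_norm_add (b := Real.exp (-L)) (by positivity) hu
  have h2 := norm_le_norm_add (b := Real.exp (-L) ^ 2) (by positivity) hu
  rw [norm_u hζ] at h1 h2
  have h3 := Real.exp_pos (-L)
  have h4 : 0 < Real.exp (-L) ^ 2 := by positivity
  have h5 := sq_le_self' hL
  refine (div_le_self (div_nonneg (by linarith) (by positivity)) hL).trans ?_
  apply div_le_div₀ h3.le (by linarith) (by positivity)
  rw [sq]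
  apply mul_le_mul (by linarith) (by linarith) hr.le (by positivity)

lemma norm_dbump_ge {L : ℝ} (hL : 1 ≤ L) {ζ z : ℂ} (hζ : ‖ζ‖ = 1)
    (h1 : Real.exp (-L) ^ 2 ≤ ‖z - ζ‖) (h2 : ‖z - ζ‖ ≤ Real.exp (-L)) (hz : ‖z‖ ≤ 1) :
    1 / 8 * (1 / (L * ‖z - ζ‖)) ≤ ‖dbump L ζ z‖ := by
  rw [norm_dbump hL hζ]
  have hu := re_u_nonneg hζ hz
  have h3 := Real.exp_pos (-L)
  have h4 : 0 < Real.exp (-L) ^ 2 := by positivity
  have h5 := exp_neg_le_half hL
  have h6 : ‖((Real.exp (-L) : ℝ) : ℂ) + (1 - (starRingEnd ℂ) ζ * z)‖ ≤ 2 * Real.exp (-L) := by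
    refine (norm_add_le _ _).trans ?_
    rw [norm_u hζ, Complex.norm_real, Real.norm_eq_abs, abs_of_pos h3]
    linarith
  have h7 : ‖((Real.exp (-L) ^ 2 : ℝ) : ℂ) + (1 - (starRingEnd ℂ) ζ * z)‖ ≤ 2 * ‖z - ζ‖ := by
    refine (norm_add_le _ _).trans ?_
    rw [norm_u hζ, Complex.norm_real, Real.norm_eq_abs, abs_of_pos h4]
    linarith
  have h8 := le_norm_add_left (b := Real.exp (-L)) hu
  have h9 := le_norm_add_left (b := Real.exp (-L) ^ 2) hu
  have h10 : 0 < ‖z - ζ‖ := by linarith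
  calc 1 / 8 * (1 / (L * ‖z - ζ‖))
      = (Real.exp (-L) / 2) / ((2 * Real.exp (-L)) * (2 * ‖z - ζ‖)) / L := by
        field_simp
        norm_num
    _ ≤ _ := by
        gcongr ?_ / L
        apply div_le_div₀ (by nlinarith) (by nlinarith) (by apply mul_pos <;> linarith)
        apply mul_le_mul h6 h7 (norm_nonneg _) (by positivity)

lemma norm_bump_le {L : ℝ} (hL : 1 ≤ L) {ζ z : ℂ} (hζ : ‖ζ‖ = 1) (hz : ‖z‖ ≤ 1) {r : ℝ}
    (hr : 0 < r) (hrz : r ≤ ‖z - ζ‖) : ‖bump L ζ z‖ ≤ Real.exp (-L) / r := by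
  unfold bump
  rw [norm_div, Complex.norm_real, Real.norm_eq_abs, abs_of_pos (by linarith)]
  refine (div_le_self (norm_nonneg _) hL).trans ?_
  apply norm_psi_le (by positivity) (sq_le_self' hL) (re_u_nonneg hζ hz) hr
  rwa [norm_u hζ]

lemma bump_lip {L : ℝ} (hL : 1 ≤ L) {ζ z w : ℂ} (hζ : ‖ζ‖ = 1) (hz : ‖z‖ ≤ 1) (hw : ‖w‖ ≤ 1) :
    ‖bump L ζ z - bump L ζ w‖ ≤ 1 / Real.exp (-L) ^ 2 * ‖z - w‖ := by
  apply (convex_closedBall (0 : ℂ) 1).norm_image_sub_le_of_norm_hasDerivWithin_le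
    (f' := dbump L ζ)
  · intro y hy
    exact (hasDerivAt_bump hL hζ (mem_closedBall_zero_iff.mp hy)).hasDerivWithinAt
  · intro y hy
    exact norm_dbump_le₂ hL hζ (mem_closedBall_zero_iff.mp hy)
  · exact mem_closedBall_zero_iff.mpr hw
  · exact mem_closedBall_zero_iff.mpr hz

lemma log_ratio (L : ℝ) : Real.log (Real.exp (-L) / Real.exp (-L) ^ 2) = L := by
  have : Real.exp (-L) / Real.exp (-L) ^ 2 = Real.exp L := by
    rw [Real.exp_neg]
    field_simp
  rw [this, Real.log_exp]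

lemma bump_self {L : ℝ} (hL : 1 ≤ L) {ζ : ℂ} (hζ : ‖ζ‖ = 1) : bump L ζ ζ = 1 := by
  have h1 : (starRingEnd ℂ) ζ * ζ = 1 := by
    rw [Complex.conj_mul', hζ]
    simp
  unfold bump psi
  rw [h1, sub_self, add_zero, add_zero, ← Complex.ofReal_div,
    ← Complex.ofReal_log (by positivity), log_ratio]
  exact div_self (by exact_mod_cast (by linarith : L ≠ 0))

lemma bump_re {L : ℝ} (hL : 1 ≤ L) {ζ z : ℂ} (hζ : ‖ζ‖ = 1) (hz : ‖z‖ ≤ 1) :
    0 ≤ (bump L ζ z).re ∧ (bump L ζ z).re ≤ 1 := by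
  have := psi_re (a := Real.exp (-L)) (b := Real.exp (-L) ^ 2) (by positivity)
    (sq_le_self' hL) (re_u_nonneg hζ hz)
  rw [log_ratio] at this
  unfold bump
  rw [Complex.div_ofReal_re]
  exact ⟨div_nonneg this.1 (by linarith), (div_le_one (by linarith)).mpr this.2⟩

lemma bump_im {L : ℝ} (hL : 1 ≤ L) (ζ z : ℂ) : |(bump L ζ z).im| ≤ π / L := by
  unfold bump
  rw [Complex.div_ofReal_im, abs_div, abs_of_pos (by linarith : 0 < L)]
  gcongr
  exact psi_im _ _ _

/-! The derivative of the Cesaro means. -/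

lemma geom_deriv_id (N : ℕ) (w : ℂ) :
    (1 - w) * ∑ k ∈ Finset.range (N + 1), (k : ℂ) * w ^ (k - 1) =
      ∑ k ∈ Finset.range (N + 1), w ^ k - ((N : ℂ) + 1) * w ^ N := by
  induction N with
  | zero => simp
  | succ N ih =>
    rw [Finset.sum_range_succ, mul_add, ih, Finset.sum_range_succ (n := N + 1)]
    simp
    ring

lemma cesaro_deriv_bound (n : ℕ) {w : ℂ} (hw : ‖w‖ ≤ 1) :
    (1 + ((n : ℝ) + 1) * ‖1 - w‖) * (1 + ((n : ℝ) + 1) * (1 - ‖w‖)) *
      ‖((n : ℂ) + 1)⁻¹ * ∑ k ∈ Finset.range (n + 1), (k : ℂ) * w ^ (k - 1)‖ ≤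
      8 * ((n : ℝ) + 1) := by
  set N : ℝ := (n : ℝ) + 1 with hN
  have hN0 : 0 < N := by positivity
  have hN1 : ‖((n : ℂ) + 1)‖ = N := by
    rw [← Nat.cast_succ, Complex.norm_natCast]
    simp [hN]
  set A := ‖∑ k ∈ Finset.range (n + 1), (k : ℂ) * w ^ (k - 1)‖ with hA
  set G := ‖∑ k ∈ Finset.range (n + 1), w ^ k‖ with hG
  set D := ‖1 - w‖ with hD
  set Y := 1 - ‖w‖ with hY
  set P := ‖w‖ ^ n with hP
  have hY0 : 0 ≤ Y := by linarith
  have hY1 : Y ≤ 1 := by have := norm_nonneg w; linarith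
  have hYD : Y ≤ D := by
    have := norm_sub_norm_le (1 : ℂ) w
    simpa [hY, hD] using this
  have hA0 : 0 ≤ A := norm_nonneg _
  have hG0 : 0 ≤ G := norm_nonneg _
  have hP0 : 0 ≤ P := by positivity
  have hP1 : P ≤ 1 := pow_le_one₀ (norm_nonneg _) hw
  have hAN : A ≤ N * N := by
    refine (norm_sum_le _ _).trans ?_
    calc _ ≤ ∑ _k ∈ Finset.range (n + 1), N := by
          apply Finset.sum_le_sum
          intro k hk
          rw [norm_mul, norm_pow, Complex.norm_natCast]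
          have h1 : (k : ℝ) ≤ N := by
            have := Finset.mem_range.mp hk
            rw [hN]
            exact_mod_cast this.le
          have h2 : ‖w‖ ^ (k - 1) ≤ 1 := pow_le_one₀ (norm_nonneg _) hw
          have h3 : (0 : ℝ) ≤ k := Nat.cast_nonneg k
          nlinarith
      _ = _ := by
          rw [Finset.sum_const, Finset.card_range, nsmul_eq_mul]
          push_cast
          rfl
  have hGN : G ≤ N := by
    refine (norm_sum_le _ _).trans ?_
    calc _ ≤ ∑ _k ∈ Finset.range (n + 1), (1 : ℝ) := by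
          apply Finset.sum_le_sum
          intro k _
          rw [norm_pow]
          exact pow_le_one₀ (norm_nonneg _) hw
      _ = _ := by simp [hN]
  have hGD : D * G ≤ 2 := by
    rw [hD, hG, ← norm_mul, mul_neg_geom_sum]
    refine (norm_sub_le _ _).trans ?_
    rw [norm_one, norm_pow]
    have : ‖w‖ ^ (n + 1) ≤ 1 := pow_le_one₀ (norm_nonneg _) hw
    linarith
  have hAD : D * A ≤ G + N * P := by
    rw [hD, hA, ← norm_mul, geom_deriv_id]
    refine (norm_sub_le _ _).trans ?_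
    rw [norm_mul, hN1, norm_pow]
  have hPY : P * (1 + n * Y) ≤ 1 := by
    have h1 : 1 + (n : ℝ) * Y ≤ (1 + Y) ^ n := one_add_mul_le_pow (by linarith) n
    have h2 : P * (1 + Y) ^ n ≤ 1 := by
      rw [hP, ← mul_pow]
      apply pow_le_one₀ (by positivity)
      have : ‖w‖ = 1 - Y := by linarith
      rw [this]
      nlinarith
    exact (mul_le_mul_of_nonneg_left h1 hP0).trans h2
  rw [norm_mul, norm_inv, hN1, ← hA]
  have e1 : (1 + N * Y) * G ≤ 3 * N := by
    have h1 : Y * G ≤ D * G := mul_le_mul_of_nonneg_right hYD hG0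
    have h2 : N * (Y * G) ≤ N * 2 := mul_le_mul_of_nonneg_left (h1.trans hGD) hN0.le
    nlinarith
  have e2 : (1 + N * Y) * P ≤ 2 := by
    have : (1 + N * Y) * P = P * (1 + n * Y) + Y * P := by rw [hN]; ring
    nlinarith
  have e3 : (1 + N * Y) * A ≤ 3 * (N * N) := by
    have h1 : Y * A ≤ D * A := mul_le_mul_of_nonneg_right hYD hA0
    have h2 : N * P ≤ N := by nlinarith
    have h3 : Y * A ≤ 2 * N := by linarith
    nlinarith
  have e4 : (1 + N * D) * (1 + N * Y) * A ≤ 8 * (N * N) := by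
    have h0 : 0 ≤ 1 + N * Y := by positivity
    have h1 : (1 + N * Y) * (D * A) ≤ (1 + N * Y) * (G + N * P) :=
      mul_le_mul_of_nonneg_left hAD h0
    have h2 : (1 + N * Y) * (G + N * P) ≤ 5 * N := by nlinarith
    have h3 : N * ((1 + N * Y) * (D * A)) ≤ N * (5 * N) :=
      mul_le_mul_of_nonneg_left (h1.trans h2) hN0.le
    nlinarith
  calc (1 + N * D) * (1 + N * Y) * (N⁻¹ * A) = N⁻¹ * ((1 + N * D) * (1 + N * Y) * A) := by ring
    _ ≤ N⁻¹ * (8 * (N * N)) := by gcongr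
    _ = 8 * N := by field_simp

end Pool.Agent.MP_f04e08_an

end MrgPart0

-- ======== part 1: formerly Pool.Agent.MP_f04e08_an.Params
section MrgPart1

set_option autoImplicit false

open Set Metric Complex Filter
open scoped Real Topology

namespace Pool.Agent.MP_f04e08_an

noncomputable def LL (j : ℕ) : ℝ := 1000 * 7 ^ j
noncomputable def tt (j : ℕ) : ℝ := Real.exp (-(LL j))
noncomputable def rho (j : ℕ) : ℝ := (1 / 8) ^ j
noncomputable def eta (j : ℕ) : ℝ := 1 / 10000 * rho j * rho j / LL j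
noncomputable def rr : ℕ → ℝ
  | 0 => 3
  | j + 1 => tt j ^ 3
noncomputable def th : ℕ → ℕ → ℝ
  | 0, _ => 0
  | j + 1, k => th j (k / 8) + 4 * ((k % 8 : ℕ) : ℝ) * rr (j + 1)
noncomputable def ze (j k : ℕ) : ℂ := Complex.exp (th j k * I)

lemma LL_ge (j : ℕ) : 1000 ≤ LL j := by
  unfold LL
  have : (1 : ℝ) ≤ 7 ^ j := one_le_pow₀ (by norm_num)
  linarith

lemma one_le_LL (j : ℕ) : 1 ≤ LL j := by linarith [LL_ge j]

lemma LL_pos (j : ℕ) : 0 < LL j := by linarith [LL_ge j]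

lemma LL_mono {i j : ℕ} (h : i ≤ j) : LL i ≤ LL j := by
  unfold LL
  gcongr
  norm_num

lemma tt_pos (j : ℕ) : 0 < tt j := Real.exp_pos _

lemma tt_anti {i j : ℕ} (h : i ≤ j) : tt j ≤ tt i := by
  unfold tt
  apply Real.exp_le_exp.mpr
  linarith [LL_mono h]

lemma tt_succ (j : ℕ) : tt (j + 1) = tt j ^ 7 := by
  unfold tt LL
  rw [← Real.exp_nat_mul]
  congr 1
  push_cast
  ring

lemma rho_pos (j : ℕ) : 0 < rho j := by unfold rho; positivity

lemma rho_le_one (j : ℕ) : rho j ≤ 1 := pow_le_one₀ (by norm_num) (by norm_num)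

lemma rho_succ (j : ℕ) : rho (j + 1) = rho j / 8 := by unfold rho; ring

lemma rho_mul (j : ℕ) : (8 : ℝ) ^ j * rho j = 1 := by
  unfold rho
  rw [← mul_pow]
  norm_num

lemma eta_pos (j : ℕ) : 0 < eta j := by
  unfold eta
  have := rho_pos j
  have := LL_pos j
  positivity

lemma eta_mul (j : ℕ) : (8 : ℝ) ^ j * eta j = 1 / 10000 * rho j / LL j := by
  unfold eta
  have := rho_mul j
  calc (8 : ℝ) ^ j * (1 / 10000 * rho j * rho j / LL j)
      = (8 ^ j * rho j) * (1 / 10000 * rho j / LL j) := by ring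
    _ = _ := by rw [this, one_mul]

lemma eta_le (j : ℕ) : eta j ≤ 1 / 10000000 * rho j := by
  unfold eta
  have h1 := rho_pos j
  have h2 := rho_le_one j
  have h3 := LL_ge j
  rw [div_le_iff₀ (by linarith)]
  nlinarith

lemma eta_succ_le (j : ℕ) : eta (j + 1) ≤ eta j := by
  unfold eta
  have h1 := rho_pos j
  have h3 := LL_pos j
  rw [rho_succ]
  apply div_le_div₀ (by positivity) (by nlinarith) h3 (LL_mono (Nat.le_succ j))

lemma tt_le_eta_succ (j : ℕ) : tt j ≤ eta (j + 1) := by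
  have h1 := Real.pow_div_factorial_le_exp (LL j) (LL_pos j).le 4
  have h2 : (Nat.factorial 4 : ℝ) = 24 := by norm_num [Nat.factorial]
  rw [h2] at h1
  have h3 := LL_pos j
  unfold tt
  rw [Real.exp_neg]
  refine (inv_anti₀ (by positivity) h1).trans ?_
  unfold eta rho LL
  have e1 : (0 : ℝ) < 7 ^ j := by positivity
  have e2 : (0 : ℝ) < 8 ^ j := by positivity
  have e3 : (8 : ℝ) ^ j * 8 ^ j ≤ 7 ^ j * 7 ^ j * 7 ^ j := by
    rw [← mul_pow, ← mul_pow, ← mul_pow]
    exact pow_le_pow_left₀ (by norm_num) (by norm_num) j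
  rw [one_div_pow, pow_succ (8 : ℝ) j, pow_succ (7 : ℝ) j, inv_div, div_le_div_iff₀ (by positivity) (by positivity)]
  have e4 : 1 / 10000 * (1 / ((8 : ℝ) ^ j * 8)) * (1 / (8 ^ j * 8)) * (1000 * 7 ^ j) ^ 4 =
      1562500 * 7 ^ j * (7 ^ j * 7 ^ j * 7 ^ j / (8 ^ j * 8 ^ j)) := by
    field_simp
    norm_num
  have e5 : (1 : ℝ) ≤ 7 ^ j * 7 ^ j * 7 ^ j / (8 ^ j * 8 ^ j) := by
    rw [one_le_div (by positivity)]
    exact e3
  rw [e4]
  nlinarith

lemma tt_le_eta (j : ℕ) : tt j ≤ eta j := (tt_le_eta_succ j).trans (eta_succ_le j)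

lemma tt_small (j : ℕ) : tt j ≤ 1 / 1000 := by
  have := tt_le_eta j
  have := eta_le j
  have := rho_le_one j
  linarith

lemma rr_pos (j : ℕ) : 0 < rr j := by
  cases j with
  | zero => norm_num [rr]
  | succ j => have := tt_pos j; simp only [rr]; positivity

lemma rr_le_three (j : ℕ) : rr j ≤ 3 := by
  cases j with
  | zero => norm_num [rr]
  | succ j =>
    have h1 := tt_pos j
    have h2 := tt_small j
    have : tt j ^ 3 ≤ 1 := pow_le_one₀ h1.le (by linarith)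
    simp only [rr]
    linarith

lemma tt_div_rr_sq (j : ℕ) : tt j / rr j ^ 2 ≤ eta j := by
  cases j with
  | zero =>
    refine le_trans ?_ (tt_le_eta 0)
    exact div_le_self (tt_pos 0).le (by norm_num [rr])
  | succ j =>
    refine le_trans (le_of_eq ?_) (tt_le_eta_succ j)
    have := tt_pos j
    rw [tt_succ]
    simp only [rr]
    field_simp

lemma tt_div_rr (j : ℕ) : tt j / rr j ≤ eta j := by
  cases j with
  | zero =>
    refine le_trans ?_ (tt_le_eta 0)
    exact div_le_self (tt_pos 0).le (by norm_num [rr])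
  | succ j =>
    refine le_trans ?_ (tt_le_eta_succ j)
    have h1 := tt_pos j
    have h2 := tt_small j
    rw [tt_succ]
    simp only [rr]
    have : tt j ^ 7 / tt j ^ 3 = tt j ^ 4 := by field_simp
    rw [this]
    exact pow_le_of_le_one h1.le (by linarith) (by norm_num)

lemma tt_le_rr (j : ℕ) : 2 * tt j ≤ rr j := by
  have h1 := tt_div_rr j
  have h2 := eta_le j
  have h3 := rho_le_one j
  have h4 := rr_pos j
  rw [div_le_iff₀ h4] at h1
  nlinarith

lemma tt_sq_le (j : ℕ) : tt j ^ 2 ≤ tt j := sq_le_self' (one_le_LL j)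

lemma rr_succ_le_tt_sq (j : ℕ) : 60 * rr (j + 1) ≤ tt j ^ 2 := by
  have h1 := tt_pos j
  have h2 := tt_small j
  simp only [rr]
  have : 0 < tt j ^ 2 := by positivity
  nlinarith

lemma rr_succ_le (j : ℕ) : 60 * rr (j + 1) ≤ rr j := by
  have := rr_succ_le_tt_sq j
  have := tt_sq_le j
  have := tt_le_rr j
  have := tt_pos j
  linarith

lemma rr_anti {i j : ℕ} (h : i ≤ j) : rr j ≤ rr i := by
  induction h with
  | refl => exact le_rfl
  | step _ ih =>
    refine le_trans ?_ ih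
    rename_i m _
    have := rr_succ_le m
    have := rr_pos (m + 1)
    simp only [Nat.succ_eq_add_one]
    linarith

lemma rr_le_rho (j : ℕ) : rr j ≤ 3 * rho j := by
  induction j with
  | zero => norm_num [rr, rho]
  | succ j ih =>
    have := rr_succ_le j
    have := rr_pos (j + 1)
    rw [rho_succ]
    linarith

lemma th_step (j k : ℕ) :
    0 ≤ th (j + 1) k - th j (k / 8) ∧ th (j + 1) k - th j (k / 8) ≤ 28 * rr (j + 1) := by
  have h1 : ((k % 8 : ℕ) : ℝ) ≤ 7 := by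
    have : k % 8 ≤ 7 := by omega
    exact_mod_cast this
  have h2 : (0 : ℝ) ≤ ((k % 8 : ℕ) : ℝ) := Nat.cast_nonneg _
  have h3 := rr_pos (j + 1)
  simp only [th, add_sub_cancel_left]
  constructor
  · positivity
  · nlinarith

lemma th_anc (j d : ℕ) : ∀ k : ℕ, 0 ≤ th (j + d) k - th j (k / 8 ^ d) ∧
    th (j + d) k - th j (k / 8 ^ d) ≤ 56 * (rr (j + 1) - rr (j + d + 1)) := by
  induction d with
  | zero => intro k; simp
  | succ d ih =>
    intro k
    have h1 := ih (k / 8)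
    have h2 := th_step (j + d) k
    have h3 := rr_succ_le (j + d + 1)
    have h4 := rr_pos (j + d + 1 + 1)
    rw [Nat.div_div_eq_div_mul, ← pow_succ'] at h1
    rw [← add_assoc]
    constructor <;> linarith [h1.1, h1.2, h2.1, h2.2]

lemma th_bound (j k : ℕ) : 0 ≤ th j k ∧ th j k ≤ 1 := by
  have h1 := th_anc 0 j k
  have h2 := rr_succ_le_tt_sq 0
  have h3 := tt_sq_le 0
  have h4 := tt_small 0
  have h5 := rr_pos (j + 1)
  simp only [th, zero_add, sub_zero] at h1 h2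
  constructor <;> linarith [h1.1, h1.2]

lemma th_sep (j : ℕ) : ∀ k k' : ℕ, k < 8 ^ j → k' < 8 ^ j → k ≠ k' →
    4 * rr j ≤ |th j k - th j k'| := by
  induction j with
  | zero => intro k k' h1 h2 h3; omega
  | succ j ih =>
    intro k k' h1 h2 h3
    have h4 := rr_pos (j + 1)
    by_cases h : k / 8 = k' / 8
    · have h5 : k % 8 ≠ k' % 8 := by omega
      simp only [th, h, add_sub_add_left_eq_sub]
      rw [← sub_mul, ← mul_sub, abs_mul, abs_mul, abs_of_pos h4, abs_of_pos (by norm_num : (0 : ℝ) < 4)]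
      have h6 : (1 : ℝ) ≤ |((k % 8 : ℕ) : ℝ) - ((k' % 8 : ℕ) : ℝ)| := by
        have : (1 : ℤ) ≤ |((k % 8 : ℕ) : ℤ) - ((k' % 8 : ℕ) : ℤ)| := by
          apply Int.one_le_abs
          omega
        exact_mod_cast this
      nlinarith
    · have h5 := ih (k / 8) (k' / 8) (by rw [pow_succ] at h1; omega) (by rw [pow_succ] at h2; omega) h
      have h6 := th_step j k
      have h7 := th_step j k'
      have h8 := rr_succ_le j
      rcases le_abs'.mp h5 with h9 | h9
      · apply le_abs'.mpr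
        left
        linarith [h6.1, h6.2, h7.1, h7.2]
      · apply le_abs'.mpr
        right
        linarith [h6.1, h6.2, h7.1, h7.2]

lemma norm_exp_sub_exp (a b : ℝ) :
    ‖Complex.exp (a * I) - Complex.exp (b * I)‖ = ‖Complex.exp (I * ((a - b : ℝ) : ℂ)) - 1‖ := by
  have : Complex.exp (a * I) - Complex.exp (b * I) =
      Complex.exp (b * I) * (Complex.exp (I * ((a - b : ℝ) : ℂ)) - 1) := by
    rw [mul_sub, mul_one, ← Complex.exp_add]
    congr 2
    push_cast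
    ring
  rw [this, norm_mul, Complex.norm_exp_ofReal_mul_I, one_mul]

lemma chord_le (a b : ℝ) : ‖Complex.exp (a * I) - Complex.exp (b * I)‖ ≤ |a - b| := by
  rw [norm_exp_sub_exp]
  exact Real.norm_exp_I_mul_ofReal_sub_one_le

lemma sin_half_ge {s : ℝ} (h0 : 0 ≤ s) :
    (s ≤ π → s / 2 ≤ 2 * Real.sin (s / 2)) ∧ (s ≤ π + 1 → s / 4 ≤ 2 * Real.sin (s / 2)) := by
  have hpi := Real.pi_gt_three
  have hpi' := Real.pi_le_four
  have h2 : (1 : ℝ) / 2 ≤ 2 / π := by
    rw [div_le_div_iff₀ (by norm_num) (by linarith)]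
    linarith
  have A : s ≤ π → s / 2 ≤ 2 * Real.sin (s / 2) := by
    intro h
    have := Real.mul_le_sin (x := s / 2) (by linarith) (by linarith)
    nlinarith
  refine ⟨A, fun h => ?_⟩
  rcases le_total s π with h' | h'
  · linarith [A h']
  · rw [← Real.sin_pi_sub]
    have h3 := Real.mul_le_sin (x := π - s / 2) (by linarith) (by linarith)
    have h4 : 2 / π * (π - s / 2) = 2 - s / π := by field_simp
    have h5 : s / π ≤ 4 / 3 := by
      rw [div_le_div_iff₀ (by linarith) (by norm_num)]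
      linarith
    linarith

lemma chord_ge (a b : ℝ) :
    (|a - b| ≤ π → |a - b| / 2 ≤ ‖Complex.exp (a * I) - Complex.exp (b * I)‖) ∧
    (|a - b| ≤ π + 1 → |a - b| / 4 ≤ ‖Complex.exp (a * I) - Complex.exp (b * I)‖) := by
  rw [norm_exp_sub_exp, Complex.norm_exp_I_mul_ofReal_sub_one, Real.norm_eq_abs]
  have h1 := sin_half_ge (abs_nonneg (a - b))
  have h2 : 2 * Real.sin (|a - b| / 2) ≤ |2 * Real.sin ((a - b) / 2)| := by
    rcases abs_cases (a - b) with h | h
    · rw [h.1]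
      exact le_abs_self _
    · rw [h.1, neg_div, Real.sin_neg, mul_neg]
      exact neg_le_abs _
  exact ⟨fun h => (h1.1 h).trans h2, fun h => (h1.2 h).trans h2⟩

lemma norm_ze (j k : ℕ) : ‖ze j k‖ = 1 := Complex.norm_exp_ofReal_mul_I _

lemma ze_sep {j k k' : ℕ} (h1 : k < 8 ^ j) (h2 : k' < 8 ^ j) (h3 : k ≠ k') :
    2 * rr j ≤ ‖ze j k - ze j k'‖ := by
  have h4 := th_sep j k k' h1 h2 h3
  have h5 := th_bound j k
  have h6 := th_bound j k'
  have h7 := (chord_ge (th j k) (th j k')).1 (by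
    have := Real.pi_gt_three
    rw [abs_le]
    constructor <;> linarith [h5.1, h5.2, h6.1, h6.2])
  unfold ze
  linarith

lemma ze_step (j k : ℕ) : ‖ze (j + 1) k - ze j (k / 8)‖ ≤ 28 * rr (j + 1) := by
  refine (chord_le _ _).trans ?_
  have := th_step j k
  rw [abs_of_nonneg this.1]
  exact this.2

lemma ze_anc {i j k : ℕ} (hij : j ≤ i) (hk : k < 8 ^ i) :
    ∃ k₀ < 8 ^ j, ‖ze i k - ze j k₀‖ ≤ 56 * rr (j + 1) := by
  obtain ⟨d, rfl⟩ := Nat.exists_eq_add_of_le hij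
  refine ⟨k / 8 ^ d, ?_, ?_⟩
  · rw [Nat.div_lt_iff_lt_mul (by positivity), ← pow_add]
    exact hk
  · refine (chord_le _ _).trans ?_
    have := th_anc j d k
    rw [abs_of_nonneg this.1]
    linarith [this.2, rr_pos (j + d + 1)]

/-- The Lipschitz constant of the earlier levels. -/
noncomputable def Lam (j : ℕ) : ℝ := ∑ i ∈ Finset.range j, 3 * 8 ^ i * (1 / tt i ^ 2)

lemma Lam_nonneg (j : ℕ) : 0 ≤ Lam j := Finset.sum_nonneg fun i _ => by positivity

lemma sum_eight_le (j : ℕ) : ∑ i ∈ Finset.range j, (8 : ℝ) ^ i ≤ 8 ^ j := by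
  induction j with
  | zero => simp
  | succ j ih =>
    rw [Finset.sum_range_succ, pow_succ]
    have : (0 : ℝ) < 8 ^ j := by positivity
    linarith

lemma Lam_mul_rr (j : ℕ) : Lam j * rr j ≤ 3 * (8 ^ j * eta j) := by
  cases j with
  | zero =>
    have := eta_pos 0
    simp only [Lam, Finset.range_zero, Finset.sum_empty, zero_mul]
    positivity
  | succ j =>
    have h1 : Lam (j + 1) ≤ 3 * 8 ^ (j + 1) * (1 / tt j ^ 2) := by
      calc Lam (j + 1) ≤ ∑ i ∈ Finset.range (j + 1), 3 * 8 ^ i * (1 / tt j ^ 2) := by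
            apply Finset.sum_le_sum
            intro i hi
            have := tt_anti (Nat.lt_succ_iff.mp (Finset.mem_range.mp hi))
            have := tt_pos j
            gcongr
        _ = 3 * (∑ i ∈ Finset.range (j + 1), 8 ^ i) * (1 / tt j ^ 2) := by
            rw [Finset.mul_sum, Finset.sum_mul]
        _ ≤ _ := by
            gcongr
            exact sum_eight_le _
    have h2 := tt_pos j
    calc Lam (j + 1) * rr (j + 1) ≤ 3 * 8 ^ (j + 1) * (1 / tt j ^ 2) * rr (j + 1) :=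
          mul_le_mul_of_nonneg_right h1 (rr_pos _).le
      _ = 3 * (8 ^ (j + 1) * tt j) := by
          simp only [rr]
          field_simp
      _ ≤ _ := by
          gcongr
          exact tt_le_eta_succ j

end Pool.Agent.MP_f04e08_an

end MrgPart1

-- ======== part 2: formerly Pool.Agent.MP_f04e08_an.Construct
section MrgPart2

set_option autoImplicit false

open Set Metric Complex Filter
open scoped Real Topology

namespace Pool.Agent.MP_f04e08_an

noncomputable def QQ (j k : ℕ) : ℂ :=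
  ((1 - rho j : ℝ) : ℂ) * Complex.exp ((((8 * (k / 8) : ℕ) : ℝ) * rho j : ℝ) * I)
noncomputable def TT (j k : ℕ) : ℂ :=
  ((1 - rho (j + 1) : ℝ) : ℂ) * Complex.exp (((k : ℝ) * rho j : ℝ) * I)
noncomputable def SS : ℕ → ℂ → ℂ
  | 0 => fun _ => 0
  | j + 1 => fun z => SS j z +
      ∑ k ∈ Finset.range (8 ^ j), (TT j k - SS j (ze j k)) * bump (LL j) (ze j k) z
noncomputable def cc (j k : ℕ) : ℂ := TT j k - SS j (ze j k)
noncomputable def FF (j : ℕ) (z : ℂ) : ℂ :=
  ∑ k ∈ Finset.range (8 ^ j), cc j k * bump (LL j) (ze j k) z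
noncomputable def dFF (j : ℕ) (z : ℂ) : ℂ :=
  ∑ k ∈ Finset.range (8 ^ j), cc j k * dbump (LL j) (ze j k) z
noncomputable def phi (z : ℂ) : ℂ := ∑' j, FF j z

lemma SS_succ (j : ℕ) (z : ℂ) : SS (j + 1) z = SS j z + FF j z := rfl

lemma SS_eq (j : ℕ) (z : ℂ) : SS j z = ∑ i ∈ Finset.range j, FF i z := by
  induction j with
  | zero => rfl
  | succ j ih => rw [SS_succ, ih, Finset.sum_range_succ]

lemma QQ_succ (j k : ℕ) : QQ (j + 1) k = TT j (k / 8) := by
  unfold QQ TT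
  congr 4
  rw [rho_succ]
  push_cast
  ring

lemma norm_QQ (j k : ℕ) : ‖QQ j k‖ = 1 - rho j := by
  unfold QQ
  rw [norm_mul, Complex.norm_exp_ofReal_mul_I, mul_one, Complex.norm_real, Real.norm_eq_abs,
    abs_of_nonneg (by linarith [rho_le_one j])]

lemma norm_TT (j k : ℕ) : ‖TT j k‖ = 1 - rho j / 8 := by
  unfold TT
  rw [norm_mul, Complex.norm_exp_ofReal_mul_I, mul_one, Complex.norm_real, Real.norm_eq_abs,
    abs_of_nonneg (by linarith [rho_le_one (j + 1)]), rho_succ]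

lemma TT_sub_QQ_le (j k : ℕ) : ‖TT j k - QQ j k‖ ≤ 8 * rho j := by
  have h0 := rho_pos j
  have h1 := rho_le_one j
  have e : TT j k - QQ j k = ((7 / 8 * rho j : ℝ) : ℂ) * Complex.exp (((k : ℝ) * rho j : ℝ) * I) +
      ((1 - rho j : ℝ) : ℂ) * (Complex.exp (((k : ℝ) * rho j : ℝ) * I) -
        Complex.exp ((((8 * (k / 8) : ℕ) : ℝ) * rho j : ℝ) * I)) := by
    unfold TT QQ
    rw [rho_succ]
    push_cast
    ring
  rw [e]
  refine (norm_add_le _ _).trans ?_
  rw [norm_mul, norm_mul, Complex.norm_exp_ofReal_mul_I, mul_one, Complex.norm_real,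
    Complex.norm_real, Real.norm_eq_abs, Real.norm_eq_abs, abs_of_pos (by positivity),
    abs_of_nonneg (by linarith)]
  have h2 := chord_le ((k : ℝ) * rho j) (((8 * (k / 8) : ℕ) : ℝ) * rho j)
  have h3 : |(k : ℝ) * rho j - ((8 * (k / 8) : ℕ) : ℝ) * rho j| ≤ 7 * rho j := by
    rw [← sub_mul, abs_mul, abs_of_pos h0]
    gcongr
    have h4 : 8 * (k / 8) ≤ k := by omega
    have h5 : k ≤ 8 * (k / 8) + 7 := by omega
    have h4' : ((8 * (k / 8) : ℕ) : ℝ) ≤ k := by exact_mod_cast h4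
    have h5' : (k : ℝ) ≤ ((8 * (k / 8) : ℕ) : ℝ) + 7 := by exact_mod_cast h5
    rw [abs_le]
    constructor <;> linarith
  have h4 := h2.trans h3
  have h5 := norm_nonneg (Complex.exp (((k : ℝ) * rho j : ℝ) * I) -
        Complex.exp ((((8 * (k / 8) : ℕ) : ℝ) * rho j : ℝ) * I))
  nlinarith

lemma TT_sub_QQ_ge (j k : ℕ) : 7 / 8 * rho j ≤ ‖TT j k - QQ j k‖ := by
  have := norm_sub_norm_le (TT j k) (QQ j k)
  rw [norm_TT, norm_QQ] at this
  linarith

lemma TT_sub_exp (j k : ℕ) :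
    ‖TT j k - Complex.exp (((k : ℝ) * rho j : ℝ) * I)‖ = rho j / 8 := by
  have e : TT j k - Complex.exp (((k : ℝ) * rho j : ℝ) * I) =
      ((-(rho j / 8) : ℝ) : ℂ) * Complex.exp (((k : ℝ) * rho j : ℝ) * I) := by
    unfold TT
    rw [rho_succ]
    push_cast
    ring
  rw [e, norm_mul, Complex.norm_exp_ofReal_mul_I, mul_one, Complex.norm_real, Real.norm_eq_abs,
    abs_neg, abs_of_pos (by linarith [rho_pos j])]

/-- The partial sum at a node is close to the target of its parent. -/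
def Good (j : ℕ) : Prop := ∀ k < 8 ^ j, ‖SS j (ze j k) - QQ j k‖ ≤ 1 / 1000 * rho j

lemma Good.cc_le {j : ℕ} (h : Good j) {k : ℕ} (hk : k < 8 ^ j) : ‖cc j k‖ ≤ 3 := by
  have e : cc j k = TT j k - QQ j k - (SS j (ze j k) - QQ j k) := by unfold cc; ring
  rw [e]
  refine (norm_sub_le _ _).trans ?_
  have h1 := norm_sub_le (TT j k) (QQ j k)
  rw [norm_TT, norm_QQ] at h1
  have := h k hk
  have := rho_pos j
  have := rho_le_one j
  linarith

lemma sum_bound {j : ℕ} (h : Good j) (g : ℕ → ℂ) (s : Finset ℕ) (hs : s ⊆ Finset.range (8 ^ j))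
    {B : ℝ} (hB : 0 ≤ B) (hg : ∀ k ∈ s, ‖g k‖ ≤ B) :
    ‖∑ k ∈ s, cc j k * g k‖ ≤ 3 * (8 ^ j * B) := by
  refine (norm_sum_le _ _).trans ?_
  calc _ ≤ ∑ _k ∈ s, 3 * B := by
        apply Finset.sum_le_sum
        intro k hk
        rw [norm_mul]
        exact mul_le_mul (h.cc_le (Finset.mem_range.mp (hs hk))) (hg k hk) (norm_nonneg _)
          (by norm_num)
    _ = s.card * (3 * B) := by simp
    _ ≤ 8 ^ j * (3 * B) := by
        gcongr
        have := Finset.card_le_card hs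
        rw [Finset.card_range] at this
        exact_mod_cast this
    _ = _ := by ring

lemma FF_lip {j : ℕ} (h : Good j) {z w : ℂ} (hz : ‖z‖ ≤ 1) (hw : ‖w‖ ≤ 1) :
    ‖FF j z - FF j w‖ ≤ 3 * 8 ^ j * (1 / tt j ^ 2) * ‖z - w‖ := by
  unfold FF
  rw [← Finset.sum_sub_distrib]
  simp only [← mul_sub]
  refine (sum_bound h _ _ subset_rfl (B := 1 / tt j ^ 2 * ‖z - w‖) (by positivity) ?_).trans
    (le_of_eq (by ring))
  intro k _
  exact bump_lip (one_le_LL j) (norm_ze j k) hz hw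

lemma dFF_le {j : ℕ} (h : Good j) {z : ℂ} (hz : ‖z‖ ≤ 1) :
    ‖dFF j z‖ ≤ 3 * 8 ^ j * (1 / tt j ^ 2) := by
  unfold dFF
  refine (sum_bound h _ _ subset_rfl (B := 1 / tt j ^ 2) (by positivity) ?_).trans
    (le_of_eq (by ring))
  intro k _
  exact norm_dbump_le₂ (one_le_LL j) (norm_ze j k) hz

lemma SS_lip {j : ℕ} (h : ∀ i < j, Good i) {z w : ℂ} (hz : ‖z‖ ≤ 1) (hw : ‖w‖ ≤ 1) :
    ‖SS j z - SS j w‖ ≤ Lam j * ‖z - w‖ := by
  rw [SS_eq, SS_eq, ← Finset.sum_sub_distrib, Lam, Finset.sum_mul]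
  refine (norm_sum_le _ _).trans (Finset.sum_le_sum fun i hi => ?_)
  exact FF_lip (h i (Finset.mem_range.mp hi)) hz hw

lemma far_of_near {j k k' : ℕ} (hk : k < 8 ^ j) (hk' : k' < 8 ^ j) (hne : k' ≠ k) {z : ℂ}
    (hz : ‖z - ze j k‖ ≤ rr j) : rr j ≤ ‖z - ze j k'‖ := by
  have h1 := ze_sep hk hk' hne.symm
  have h2 : ‖ze j k - ze j k'‖ ≤ ‖z - ze j k‖ + ‖z - ze j k'‖ := by
    have := norm_sub_le (z - ze j k') (z - ze j k)
    have e : z - ze j k' - (z - ze j k) = ze j k - ze j k' := by ring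
    rw [e] at this
    linarith
  linarith

lemma bump_far {j k : ℕ} {z : ℂ} (hz : ‖z‖ ≤ 1) (h : rr j ≤ ‖z - ze j k‖) :
    ‖bump (LL j) (ze j k) z‖ ≤ eta j :=
  (norm_bump_le (one_le_LL j) (norm_ze j k) hz (rr_pos j) h).trans (tt_div_rr j)

lemma dbump_far {j k : ℕ} {z : ℂ} (hz : ‖z‖ ≤ 1) (h : rr j ≤ ‖z - ze j k‖) :
    ‖dbump (LL j) (ze j k) z‖ ≤ eta j :=
  (norm_dbump_le₃ (one_le_LL j) (norm_ze j k) hz (rr_pos j) h).trans (tt_div_rr_sq j)

lemma FF_others {j k : ℕ} (h : Good j) (hk : k < 8 ^ j) {z : ℂ} (hz : ‖z‖ ≤ 1)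
    (hzk : ‖z - ze j k‖ ≤ rr j) :
    ‖FF j z - cc j k * bump (LL j) (ze j k) z‖ ≤ 3 * (8 ^ j * eta j) := by
  unfold FF
  rw [← Finset.add_sum_erase _ _ (Finset.mem_range.mpr hk), add_sub_cancel_left]
  apply sum_bound h _ _ (Finset.erase_subset _ _) (eta_pos j).le
  intro k' hk'
  rw [Finset.mem_erase, Finset.mem_range] at hk'
  exact bump_far hz (far_of_near hk hk'.2 hk'.1 hzk)

lemma dFF_others {j k : ℕ} (h : Good j) (hk : k < 8 ^ j) {z : ℂ} (hz : ‖z‖ ≤ 1)
    (hzk : ‖z - ze j k‖ ≤ rr j) :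
    ‖dFF j z - cc j k * dbump (LL j) (ze j k) z‖ ≤ 3 * (8 ^ j * eta j) := by
  unfold dFF
  rw [← Finset.add_sum_erase _ _ (Finset.mem_range.mpr hk), add_sub_cancel_left]
  apply sum_bound h _ _ (Finset.erase_subset _ _) (eta_pos j).le
  intro k' hk'
  rw [Finset.mem_erase, Finset.mem_range] at hk'
  exact dbump_far hz (far_of_near hk hk'.2 hk'.1 hzk)

lemma eta_mul_le (j : ℕ) : (8 : ℝ) ^ j * eta j ≤ 1 / 10000000 * rho j := by
  rw [eta_mul, div_le_iff₀ (LL_pos j)]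
  have := LL_ge j
  have := rho_pos j
  nlinarith

lemma good_succ {j : ℕ} (h : ∀ i ≤ j, Good i) : Good (j + 1) := by
  intro k hk
  have hk0 : k / 8 < 8 ^ j := by rw [pow_succ] at hk; omega
  set z := ze (j + 1) k with hz
  set ζ := ze j (k / 8) with hζ
  have hz1 : ‖z‖ ≤ 1 := (norm_ze _ _).le
  have hζ1 : ‖ζ‖ ≤ 1 := (norm_ze _ _).le
  have hd : ‖z - ζ‖ ≤ 28 * rr (j + 1) := ze_step j k
  have hd' : ‖z - ζ‖ ≤ rr j := by linarith [rr_succ_le j, rr_pos (j + 1)]
  have e : SS (j + 1) z - QQ (j + 1) k = (SS j z - SS j ζ) +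
      (FF j z - cc j (k / 8) * bump (LL j) ζ z) +
      cc j (k / 8) * (bump (LL j) ζ z - bump (LL j) ζ ζ) := by
    rw [SS_succ, QQ_succ, bump_self (one_le_LL j) (norm_ze _ _)]
    unfold cc
    ring
  have h1 : ‖SS j z - SS j ζ‖ ≤ 3 * (8 ^ j * eta j) := by
    refine (SS_lip (fun i hi => h i hi.le) hz1 hζ1).trans (le_trans ?_ (Lam_mul_rr j))
    exact mul_le_mul_of_nonneg_left hd' (Lam_nonneg j)
  have h2 := FF_others (h j le_rfl) hk0 hz1 hd'
  have h3 : ‖cc j (k / 8) * (bump (LL j) ζ z - bump (LL j) ζ ζ)‖ ≤ 3 * (28 * tt j) := by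
    rw [norm_mul]
    apply mul_le_mul ((h j le_rfl).cc_le hk0) _ (norm_nonneg _) (by norm_num)
    refine (bump_lip (one_le_LL j) (norm_ze _ _) hz1 hζ1).trans ?_
    have := tt_pos j
    calc 1 / tt j ^ 2 * ‖z - ζ‖ ≤ 1 / tt j ^ 2 * (28 * rr (j + 1)) := by gcongr
      _ = 28 * tt j := by
          simp only [rr]
          field_simp
  rw [e]
  have h4 := norm_add₃_le (a := SS j z - SS j ζ) (b := FF j z - cc j (k / 8) * bump (LL j) ζ z)
    (c := cc j (k / 8) * (bump (LL j) ζ z - bump (LL j) ζ ζ))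
  have h5 := eta_mul_le j
  have h6 := tt_le_eta_succ j
  have h7 := eta_le (j + 1)
  have h8 := rho_succ j
  have h9 := rho_pos j
  linarith

lemma good (j : ℕ) : Good j := by
  have : ∀ j, ∀ i ≤ j, Good i := by
    intro j
    induction j with
    | zero =>
      intro i hi
      obtain rfl : i = 0 := by omega
      intro k hk
      simp [SS, QQ, rho]
    | succ j ih =>
      intro i hi
      rcases Nat.lt_or_ge i (j + 1) with h | h
      · exact ih i (by omega)
      · obtain rfl : i = j + 1 := by omega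
        exact good_succ ih
  exact this j j le_rfl

lemma cc_le' {j k : ℕ} (hk : k < 8 ^ j) : ‖cc j k‖ ≤ 9 * rho j := by
  have e : cc j k = TT j k - QQ j k - (SS j (ze j k) - QQ j k) := by unfold cc; ring
  rw [e]
  refine (norm_sub_le _ _).trans ?_
  linarith [TT_sub_QQ_le j k, good j k hk, rho_pos j]

lemma cc_ge {j k : ℕ} (hk : k < 8 ^ j) : 4 / 5 * rho j ≤ ‖cc j k‖ := by
  have e : cc j k = TT j k - QQ j k - (SS j (ze j k) - QQ j k) := by unfold cc; ring
  rw [e]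
  refine le_trans ?_ (norm_sub_norm_le _ _)
  linarith [TT_sub_QQ_ge j k, good j k hk, rho_pos j]

lemma hasDerivAt_FF (j : ℕ) {z : ℂ} (hz : ‖z‖ ≤ 1) : HasDerivAt (FF j) (dFF j z) z := by
  unfold FF dFF
  apply HasDerivAt.fun_sum
  intro k _
  exact (hasDerivAt_bump (one_le_LL j) (norm_ze j k) hz).const_mul _

lemma summable_rho : Summable rho := summable_geometric_of_lt_one (by norm_num) (by norm_num)

lemma FF_bound {s : ℝ} (hs : s < 1) (j : ℕ) (w : ℂ) (hw : w ∈ ball (0 : ℂ) s) :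
    ‖FF j w‖ ≤ 3 / (1 - s) * rho j := by
  rw [mem_ball_zero_iff] at hw
  have h0 : 0 < 1 - s := by linarith
  have h1 := tt_pos j
  unfold FF
  refine (sum_bound (good j) _ _ subset_rfl (B := tt j / (1 - s)) (by positivity) ?_).trans ?_
  · intro k _
    apply norm_bump_le (one_le_LL j) (norm_ze j k) (by linarith) h0
    have := norm_sub_norm_le (ze j k) w
    rw [norm_ze, norm_sub_rev] at this
    linarith
  · have h2 : (8 : ℝ) ^ j * tt j ≤ rho j := by
      have h3 : (8 : ℝ) ^ j * tt j ≤ 8 ^ j * eta j := by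
        gcongr
        exact tt_le_eta j
      linarith [eta_mul_le j, rho_pos j]
    calc 3 * (8 ^ j * (tt j / (1 - s))) = 3 / (1 - s) * (8 ^ j * tt j) := by ring
      _ ≤ _ := by gcongr

lemma phi_facts {z : ℂ} (hz : ‖z‖ < 1) :
    DifferentiableAt ℂ phi z ∧ HasSum (fun j => FF j z) (phi z) ∧
      HasSum (fun j => dFF j z) (deriv phi z) := by
  set s := (‖z‖ + 1) / 2 with hs
  have hs1 : s < 1 := by linarith
  have hzs : z ∈ ball (0 : ℂ) s := by
    rw [mem_ball_zero_iff]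
    linarith
  have hu : Summable fun j => 3 / (1 - s) * rho j := summable_rho.mul_left _
  have hd : ∀ j, DifferentiableOn ℂ (FF j) (ball 0 s) := by
    intro j w hw
    rw [mem_ball_zero_iff] at hw
    exact (hasDerivAt_FF j (by linarith)).differentiableAt.differentiableWithinAt
  refine ⟨?_, ?_, ?_⟩
  · exact (Complex.differentiableOn_tsum_of_summable_norm hu hd isOpen_ball
      (FF_bound hs1)).differentiableAt (isOpen_ball.mem_nhds hzs)
  · exact (Summable.of_norm_bounded hu fun j => FF_bound hs1 j z hzs).hasSum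
  · have := Complex.hasSum_deriv_of_summable_norm hu hd isOpen_ball (FF_bound hs1) hzs
    have e : (fun j => dFF j z) = fun j => deriv (FF j) z := by
      ext j
      exact (hasDerivAt_FF j hz.le).deriv.symm
    rw [e]
    exact this

lemma tail_bound {a : ℕ → ℂ} {s : ℂ} (h : HasSum a s) (j : ℕ)
    (ha : ∀ i, j < i → ‖a i‖ ≤ 3 * (8 ^ i * eta i)) :
    ‖s - ∑ i ∈ Finset.range (j + 1), a i‖ ≤ 3 * (8 ^ j * eta j) := by
  have h1 := (hasSum_nat_add_iff' (j + 1)).mpr h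
  have h2 : HasSum (fun n : ℕ => 3 * (8 ^ j * eta j) / 8 * (1 / 8 : ℝ) ^ n)
      (3 * (8 ^ j * eta j) / 8 * (1 - 1 / 8)⁻¹) :=
    (hasSum_geometric_of_lt_one (by norm_num) (by norm_num)).mul_left _
  have h3 := h1.norm_le_of_bounded h2 (fun n => by
    refine (ha (n + (j + 1)) (by omega)).trans ?_
    rw [eta_mul, eta_mul]
    have e : rho (n + (j + 1)) = rho j / 8 * (1 / 8) ^ n := by
      unfold rho
      ring
    rw [e]
    have h4 := LL_pos j
    have h5 := LL_mono (show j ≤ n + (j + 1) by omega)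
    have h6 := rho_pos j
    calc 3 * (1 / 10000 * (rho j / 8 * (1 / 8) ^ n) / LL (n + (j + 1)))
        ≤ 3 * (1 / 10000 * (rho j / 8 * (1 / 8) ^ n) / LL j) := by gcongr
      _ = _ := by ring)
  refine h3.trans ?_
  have := eta_pos j
  have : 0 < (8 : ℝ) ^ j * eta j := by positivity
  norm_num
  linarith

/-- The region of the disc attached to a node. -/
def Reg (j k : ℕ) : Set ℂ :=
  {z | ‖z‖ < 1 ∧ ‖z - ze j k‖ < rr j ∧ ∀ i, j < i → ∀ k' < 8 ^ i, rr i ≤ ‖z - ze i k'‖}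

lemma cover {z : ℂ} (hz : ‖z‖ < 1) : ∃ j, ∃ k < 8 ^ j, z ∈ Reg j k := by
  set s : Set ℕ := {j | ∃ k < 8 ^ j, ‖z - ze j k‖ < rr j} with hs
  have h0 : 0 ∈ s := by
    refine ⟨0, by norm_num, ?_⟩
    have := norm_sub_le z (ze 0 0)
    rw [norm_ze] at this
    simp only [rr]
    linarith
  have hb : BddAbove s := by
    have h1 : Tendsto (fun j => 3 * rho j) atTop (𝓝 (3 * 0)) :=
      summable_rho.tendsto_atTop_zero.const_mul 3
    have h2 := h1.eventually (gt_mem_nhds (show 3 * 0 < 1 - ‖z‖ by linarith))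
    obtain ⟨J, hJ⟩ := eventually_atTop.mp h2
    refine ⟨J, fun j hj => ?_⟩
    by_contra hlt
    obtain ⟨k, _, hk⟩ := hj
    have h3 := hJ j (not_le.mp hlt).le
    have h4 := norm_sub_norm_le (ze j k) z
    rw [norm_ze, norm_sub_rev] at h4
    linarith [rr_le_rho j]
  obtain ⟨k, hk, hk'⟩ := Nat.sSup_mem ⟨0, h0⟩ hb
  refine ⟨sSup s, k, hk, hz, hk', fun i hi k' hk'' => ?_⟩
  by_contra hlt
  have : i ∈ s := ⟨k', hk'', not_le.mp hlt⟩
  exact absurd (le_csSup hb this) (not_le.mpr hi)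

lemma val_est {j k : ℕ} (hk : k < 8 ^ j) {z : ℂ} (hz : z ∈ Reg j k) :
    ‖phi z - (SS j (ze j k) + cc j k * bump (LL j) (ze j k) z)‖ ≤ 1 / 1000000 * rho j := by
  obtain ⟨hz1, hz2, hz3⟩ := hz
  have h1 := tail_bound (phi_facts hz1).2.1 j (fun i hi => by
    unfold FF
    apply sum_bound (good i) _ _ subset_rfl (eta_pos i).le
    intro k' hk'
    exact bump_far hz1.le (hz3 i hi k' (Finset.mem_range.mp hk')))
  rw [Finset.sum_range_succ, ← SS_eq] at h1
  have h2 : ‖SS j z - SS j (ze j k)‖ ≤ 3 * (8 ^ j * eta j) := by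
    refine (SS_lip (fun i _ => good i) hz1.le (norm_ze _ _).le).trans (le_trans ?_ (Lam_mul_rr j))
    exact mul_le_mul_of_nonneg_left hz2.le (Lam_nonneg j)
  have h3 := FF_others (good j) hk hz1.le hz2.le
  have e : phi z - (SS j (ze j k) + cc j k * bump (LL j) (ze j k) z) =
      (phi z - (SS j z + FF j z)) + (SS j z - SS j (ze j k)) +
        (FF j z - cc j k * bump (LL j) (ze j k) z) := by ring
  rw [e]
  refine norm_add₃_le.trans ?_
  linarith [eta_mul_le j, rho_pos j]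

lemma der_est {j k : ℕ} (hk : k < 8 ^ j) {z : ℂ} (hz : z ∈ Reg j k) :
    ‖deriv phi z - cc j k * dbump (LL j) (ze j k) z‖ ≤
      1 / 200 * rho j * (1 / (LL j * (tt j ^ 2 + ‖z - ze j k‖))) := by
  obtain ⟨hz1, hz2, hz3⟩ := hz
  have h1 := tail_bound (phi_facts hz1).2.2 j (fun i hi => by
    unfold dFF
    apply sum_bound (good i) _ _ subset_rfl (eta_pos i).le
    intro k' hk'
    exact dbump_far hz1.le (hz3 i hi k' (Finset.mem_range.mp hk')))
  rw [Finset.sum_range_succ] at h1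
  have h2 : ‖∑ i ∈ Finset.range j, dFF i z‖ ≤ Lam j :=
    (norm_sum_le _ _).trans (Finset.sum_le_sum fun i _ => dFF_le (good i) hz1.le)
  have h3 := dFF_others (good j) hk hz1.le hz2.le
  have e : deriv phi z - cc j k * dbump (LL j) (ze j k) z =
      (deriv phi z - (∑ i ∈ Finset.range j, dFF i z + dFF j z)) + ∑ i ∈ Finset.range j, dFF i z +
        (dFF j z - cc j k * dbump (LL j) (ze j k) z) := by ring
  rw [e]
  refine norm_add₃_le.trans ?_
  have h4 : tt j ^ 2 + ‖z - ze j k‖ ≤ 2 * rr j := by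
    linarith [tt_sq_le j, tt_le_rr j, tt_pos j]
  have h5 : 0 < tt j ^ 2 + ‖z - ze j k‖ := by have := tt_pos j; positivity
  have h6 := LL_pos j
  have h7 := Lam_mul_rr j
  have h8 := Lam_nonneg j
  have h9 := rr_le_three j
  have h10 : 0 < (8 : ℝ) ^ j * eta j := by have := eta_pos j; positivity
  have h11 : (Lam j + 6 * (8 ^ j * eta j)) * (tt j ^ 2 + ‖z - ze j k‖) ≤ 42 * (8 ^ j * eta j) := by
    calc _ ≤ (Lam j + 6 * (8 ^ j * eta j)) * (2 * rr j) := by gcongr
      _ = 2 * (Lam j * rr j) + 12 * (8 ^ j * eta j) * rr j := by ring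
      _ ≤ 2 * (3 * (8 ^ j * eta j)) + 12 * (8 ^ j * eta j) * 3 := by gcongr
      _ = _ := by ring
  have h12 : Lam j + 6 * (8 ^ j * eta j) ≤
      1 / 200 * rho j * (1 / (LL j * (tt j ^ 2 + ‖z - ze j k‖))) := by
    rw [mul_one_div, le_div_iff₀ (by positivity)]
    calc (Lam j + 6 * (8 ^ j * eta j)) * (LL j * (tt j ^ 2 + ‖z - ze j k‖))
        = LL j * ((Lam j + 6 * (8 ^ j * eta j)) * (tt j ^ 2 + ‖z - ze j k‖)) := by ring
      _ ≤ LL j * (42 * (8 ^ j * eta j)) := by gcongr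
      _ = 42 / 10000 * rho j := by
          rw [eta_mul]
          field_simp
      _ ≤ _ := by linarith [rho_pos j]
  linarith

lemma der_upper {j k : ℕ} (hk : k < 8 ^ j) {z : ℂ} (hz : z ∈ Reg j k) :
    ‖deriv phi z‖ ≤ 19 * rho j * (1 / (LL j * (tt j ^ 2 + ‖z - ze j k‖))) := by
  have h1 := der_est hk hz
  have h2 : ‖cc j k * dbump (LL j) (ze j k) z‖ ≤
      9 * rho j * (2 * (1 / (LL j * (tt j ^ 2 + ‖z - ze j k‖)))) := by
    rw [norm_mul]
    exact mul_le_mul (cc_le' hk) (norm_dbump_le₁ (one_le_LL j) (norm_ze j k) hz.1.le)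
      (norm_nonneg _) (by linarith [rho_pos j])
  have h3 := norm_le_insert' (deriv phi z) (cc j k * dbump (LL j) (ze j k) z)
  have h4 : 0 ≤ rho j * (1 / (LL j * (tt j ^ 2 + ‖z - ze j k‖))) := by
    have := rho_pos j
    have := LL_pos j
    positivity
  nlinarith

lemma der_lower {j k : ℕ} (hk : k < 8 ^ j) {z : ℂ} (hz : z ∈ Reg j k)
    (h1 : tt j ^ 2 ≤ ‖z - ze j k‖) (h2 : ‖z - ze j k‖ ≤ tt j) :
    9 / 100 * rho j * (1 / (LL j * ‖z - ze j k‖)) ≤ ‖deriv phi z‖ := by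
  have h3 := der_est hk hz
  have h0 : 0 < tt j ^ 2 := by have := tt_pos j; positivity
  have hL := LL_pos j
  have hr := rho_pos j
  have h4 : 4 / 5 * rho j * (1 / 8 * (1 / (LL j * ‖z - ze j k‖))) ≤
      ‖cc j k * dbump (LL j) (ze j k) z‖ := by
    rw [norm_mul]
    exact mul_le_mul (cc_ge hk) (norm_dbump_ge (one_le_LL j) (norm_ze j k) h1 h2 hz.1.le)
      (by positivity) (norm_nonneg _)
  have h5 : 1 / (LL j * (tt j ^ 2 + ‖z - ze j k‖)) ≤ 1 / (LL j * ‖z - ze j k‖) := by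
    apply one_div_le_one_div_of_le (by apply mul_pos hL; linarith)
    gcongr
    linarith
  have h6 := norm_le_insert (deriv phi z) (cc j k * dbump (LL j) (ze j k) z)
  have h7 : 1 / 200 * rho j * (1 / (LL j * (tt j ^ 2 + ‖z - ze j k‖))) ≤
      1 / 200 * rho j * (1 / (LL j * ‖z - ze j k‖)) := by gcongr
  have h8 : 0 ≤ rho j * (1 / (LL j * ‖z - ze j k‖)) := by positivity
  nlinarith

lemma pos_est {j k : ℕ} (hk : k < 8 ^ j) {z : ℂ} (hz : z ∈ Reg j k) :
    ‖phi z‖ ≤ 1 - rho j / 16 ∧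
      ‖phi z - Complex.exp (((k : ℝ) * rho j : ℝ) * I)‖ ≤ 9 * rho j := by
  have h1 := val_est hk hz
  set β := bump (LL j) (ze j k) z with hβ
  have hre := bump_re (one_le_LL j) (norm_ze j k) hz.1.le
  have him : |β.im| ≤ 1 / 250 := by
    refine (bump_im (one_le_LL j) _ _).trans ?_
    rw [div_le_iff₀ (LL_pos j)]
    linarith [Real.pi_le_four, LL_ge j]
  rw [← hβ] at hre
  have hr := rho_pos j
  have hr1 := rho_le_one j
  have h2 : ‖1 - β‖ ≤ 251 / 250 := by
    refine (Complex.norm_le_abs_re_add_abs_im _).trans ?_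
    simp only [Complex.sub_re, Complex.one_re, Complex.sub_im, Complex.one_im, zero_sub, abs_neg]
    rw [abs_of_nonneg (by linarith [hre.2])]
    linarith [hre.1]
  have h3 : ‖(SS j (ze j k) - QQ j k) * (1 - β)‖ ≤ 1 / 1000 * rho j * (251 / 250) := by
    rw [norm_mul]
    exact mul_le_mul (good j k hk) h2 (norm_nonneg _) (by positivity)
  have h4 : ‖phi z - (QQ j k + (TT j k - QQ j k) * β)‖ ≤ 2 / 1000 * rho j := by
    have e : phi z - (QQ j k + (TT j k - QQ j k) * β) =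
        (phi z - (SS j (ze j k) + cc j k * β)) + (SS j (ze j k) - QQ j k) * (1 - β) := by
      unfold cc
      ring
    rw [e]
    refine (norm_add_le _ _).trans ?_
    linarith
  have h5 := TT_sub_QQ_le j k
  constructor
  · have e : QQ j k + (TT j k - QQ j k) * β = ((1 - β.re : ℝ) : ℂ) * QQ j k +
        (β.re : ℂ) * TT j k + (TT j k - QQ j k) * ((β.im : ℂ) * I) := by
      conv_lhs => rw [← Complex.re_add_im β]
      push_cast
      ring
    have h6 : ‖QQ j k + (TT j k - QQ j k) * β‖ ≤ 1 - rho j / 8 + 8 * rho j * (1 / 250) := by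
      rw [e]
      refine norm_add₃_le.trans ?_
      rw [norm_mul, norm_mul, norm_mul, norm_mul, Complex.norm_I, mul_one, Complex.norm_real,
        Complex.norm_real, Complex.norm_real, Real.norm_eq_abs, Real.norm_eq_abs, Real.norm_eq_abs,
        abs_of_nonneg (by linarith [hre.2]), abs_of_nonneg hre.1, norm_QQ, norm_TT]
      have h7 : ‖TT j k - QQ j k‖ * |β.im| ≤ 8 * rho j * (1 / 250) :=
        mul_le_mul h5 him (abs_nonneg _) (by positivity)
      have h8 : (1 - β.re) * (1 - rho j) ≤ (1 - β.re) * (1 - rho j / 8) :=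
        mul_le_mul_of_nonneg_left (by linarith) (by linarith [hre.2])
      nlinarith
    have h7 := norm_le_insert' (phi z) (QQ j k + (TT j k - QQ j k) * β)
    linarith
  · have e : phi z - Complex.exp (((k : ℝ) * rho j : ℝ) * I) =
        (phi z - (QQ j k + (TT j k - QQ j k) * β)) + (-((TT j k - QQ j k) * (1 - β))) +
          (TT j k - Complex.exp (((k : ℝ) * rho j : ℝ) * I)) := by ring
    rw [e]
    refine norm_add₃_le.trans ?_
    rw [TT_sub_exp, norm_neg, norm_mul]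
    have h6 : ‖TT j k - QQ j k‖ * ‖1 - β‖ ≤ 8 * rho j * (251 / 250) :=
      mul_le_mul h5 h2 (norm_nonneg _) (by positivity)
    linarith

lemma norm_phi_le {z : ℂ} (hz : ‖z‖ < 1) : ‖phi z‖ ≤ 1 := by
  obtain ⟨j, k, hk, h⟩ := cover hz
  linarith [(pos_est hk h).1, rho_pos j]

lemma differentiableOn_phi : DifferentiableOn ℂ phi (ball 0 1) := fun _ hz =>
  (phi_facts (mem_ball_zero_iff.mp hz)).1.differentiableWithinAt

lemma mem_Reg_of_annulus {j k : ℕ} (hk : k < 8 ^ j) {z : ℂ} (hz : ‖z‖ < 1)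
    (h1 : tt j ^ 2 ≤ ‖z - ze j k‖) (h2 : ‖z - ze j k‖ ≤ tt j) : z ∈ Reg j k := by
  have h3 := tt_le_rr j
  have h4 := tt_pos j
  refine ⟨hz, by linarith, fun i hi k' hk' => ?_⟩
  obtain ⟨k₀, hk₀, hd⟩ := ze_anc hi.le hk'
  have h5 : rr i ≤ rr (j + 1) := rr_anti hi
  have h6 : tt j ^ 2 ≤ ‖z - ze j k₀‖ := by
    by_cases h : k₀ = k
    · rw [h]; exact h1
    · have := far_of_near hk hk₀ h (z := z) (by linarith)
      linarith [tt_sq_le j]
  have h7 : ‖z - ze j k₀‖ ≤ ‖z - ze i k'‖ + ‖ze i k' - ze j k₀‖ := by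
    have := norm_add_le (z - ze i k') (ze i k' - ze j k₀)
    rwa [sub_add_sub_cancel] at this
  linarith [rr_succ_le_tt_sq j, rr_pos (j + 1)]

end Pool.Agent.MP_f04e08_an

end MrgPart2

-- ======== part 3: formerly Pool.Agent.MP_f04e08_an.Polar
section MrgPart3

set_option autoImplicit false

open MeasureTheory Set Metric Complex Filter
open scoped ENNReal Real Topology

namespace Pool.Agent.MP_f04e08_an

lemma polar_symm_eq (p : ℝ × ℝ) :
    Complex.polarCoord.symm p = (p.1 : ℂ) * Complex.exp (p.2 * I) := by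
  rw [Complex.polarCoord_symm_apply, Complex.exp_mul_I]
  simp

lemma lintegral_polar (F : ℂ → ℝ≥0∞) (hF : Measurable F) :
    ∫⁻ z, F z = ∫⁻ r in Ioi (0 : ℝ), ∫⁻ θ in Ioo (-π) π,
      ENNReal.ofReal r * F ((r : ℂ) * Complex.exp (θ * I)) := by
  rw [← Complex.lintegral_comp_polarCoord_symm]
  have : (polarCoord.target) = Ioi (0 : ℝ) ×ˢ Ioo (-π) π := rfl
  rw [this, Measure.volume_eq_prod, setLIntegral_prod]
  · simp only [polar_symm_eq, smul_eq_mul]
  · apply Measurable.aemeasurable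
    simp only [polar_symm_eq, smul_eq_mul]
    apply Measurable.mul
    · fun_prop
    · apply hF.comp
      fun_prop

lemma lintegral_ball_polar (F : ℂ → ℝ≥0∞) (hF : Measurable F) (R : ℝ) :
    ∫⁻ z in ball (0 : ℂ) R, F z = ∫⁻ r in Ioo (0 : ℝ) R, ∫⁻ θ in Ioo (-π) π,
      ENNReal.ofReal r * F ((r : ℂ) * Complex.exp (θ * I)) := by
  rw [← lintegral_indicator measurableSet_ball, lintegral_polar _ (hF.indicator measurableSet_ball)]
  have h1 : Ioo (0 : ℝ) R = Ioi 0 ∩ Iio R := by ext x; simp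
  rw [h1, inter_comm, ← Measure.restrict_restrict measurableSet_Iio,
    ← lintegral_indicator measurableSet_Iio]
  apply setLIntegral_congr_fun measurableSet_Ioi
  intro r hr
  have hr' : (0 : ℝ) < r := hr
  by_cases h : r < R
  · simp only [indicator, mem_Iio, h, if_true]
    apply setLIntegral_congr_fun measurableSet_Ioo
    intro θ _
    have : (r : ℂ) * Complex.exp (θ * I) ∈ ball (0 : ℂ) R := by
      simp [Complex.norm_exp_ofReal_mul_I, abs_of_pos hr', h]
    simp [this]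
  · simp only [indicator, mem_Iio, h, if_false]
    have : ∀ θ : ℝ, ¬ ((r : ℂ) * Complex.exp (θ * I) ∈ ball (0 : ℂ) R) := by
      intro θ
      simp [Complex.norm_exp_ofReal_mul_I, abs_of_pos hr', not_lt.mp h]
    simp [this]

lemma lintegral_ball_radial (f : ℝ → ℝ≥0∞) (hf : Measurable f) (R : ℝ) :
    ∫⁻ z in ball (0 : ℂ) R, f ‖z‖ =
      ENNReal.ofReal (2 * π) * ∫⁻ r in Ioo (0 : ℝ) R, ENNReal.ofReal r * f r := by
  rw [lintegral_ball_polar (fun z => f ‖z‖) (hf.comp measurable_norm), ← lintegral_const_mul]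
  · apply setLIntegral_congr_fun measurableSet_Ioo
    intro r hr
    have : ∀ θ : ℝ, ‖(r : ℂ) * Complex.exp (θ * I)‖ = r := by
      intro θ
      simp [Complex.norm_exp_ofReal_mul_I, abs_of_pos hr.1]
    simp only [this, lintegral_const, MeasurableSet.univ, Measure.restrict_apply, univ_inter,
      Real.volume_Ioo]
    rw [mul_comm]
    congr 2
    ring
  · exact (ENNReal.measurable_ofReal).mul hf

lemma lintegral_Ioo_pow (n : ℕ) :
    ∫⁻ r in Ioo (0 : ℝ) 1, ENNReal.ofReal (r ^ n) = ENNReal.ofReal (1 / ((n : ℝ) + 1)) := by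
  rw [← ofReal_integral_eq_lintegral_ofReal]
  · congr 1
    rw [← integral_Ioc_eq_integral_Ioo, ← intervalIntegral.integral_of_le zero_le_one,
      integral_pow]
    simp
  · exact (continuous_pow n).integrableOn_Icc.mono_set Ioo_subset_Icc_self
  · filter_upwards [ae_restrict_mem measurableSet_Ioo] with r hr
    exact pow_nonneg hr.1.le n

lemma lintegral_ball_norm_pow (n : ℕ) :
    ∫⁻ z in ball (0 : ℂ) 1, ENNReal.ofReal (‖z‖ ^ (2 * n)) = ENNReal.ofReal (π / ((n : ℝ) + 1)) := by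
  rw [lintegral_ball_radial (fun r => ENNReal.ofReal (r ^ (2 * n))) (by fun_prop)]
  have : ∫⁻ r in Ioo (0 : ℝ) 1, ENNReal.ofReal r * ENNReal.ofReal (r ^ (2 * n)) =
      ∫⁻ r in Ioo (0 : ℝ) 1, ENNReal.ofReal (r ^ (2 * n + 1)) := by
    apply setLIntegral_congr_fun measurableSet_Ioo
    intro r hr
    simp only
    rw [← ENNReal.ofReal_mul hr.1.le, pow_succ']
  rw [this, lintegral_Ioo_pow, ← ENNReal.ofReal_mul (by positivity)]
  congr 1
  push_cast
  field_simp
  ring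

lemma integral_exp_int (k : ℤ) :
    ∫ θ in Ioo (-π) π, Complex.exp ((k : ℂ) * θ * I) = if k = 0 then (2 * π : ℂ) else 0 := by
  rw [← integral_Ioc_eq_integral_Ioo,
    ← intervalIntegral.integral_of_le (by linarith [Real.pi_pos])]
  split_ifs with h
  · subst h
    simp
    ring
  · have hk : (k : ℂ) * I ≠ 0 := mul_ne_zero (by exact_mod_cast h) I_ne_zero
    have : ∀ θ : ℝ, (k : ℂ) * θ * I = (k * I) * θ := fun θ => by ring
    simp only [this]
    rw [integral_exp_mul_complex hk]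
    have h1 : Complex.exp (k * I * (π : ℝ)) = Complex.exp (k * I * ((-π : ℝ) : ℂ)) := by
      rw [Complex.exp_eq_exp_iff_exists_int]
      refine ⟨k, ?_⟩
      push_cast
      ring
    rw [h1]
    simp

/-- Parseval on a circle for an absolutely summable series. -/
lemma parseval_circle (c : ℕ → ℂ) (hc : Summable fun n => ‖c n‖) :
    HasSum (fun n => 2 * π * ‖c n‖ ^ 2)
      (∫ θ in Ioo (-π) π, ‖∑' n, c n * Complex.exp (θ * I) ^ n‖ ^ 2) := by
  set G : ℕ × ℕ → ℝ → ℂ := fun p θ =>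
    (c p.1 * Complex.exp (θ * I) ^ p.1) * (starRingEnd ℂ) (c p.2 * Complex.exp (θ * I) ^ p.2)
    with hG
  have hnorm : ∀ p θ, ‖G p θ‖ = ‖c p.1‖ * ‖c p.2‖ := by
    intro p θ
    simp [hG, Complex.norm_exp_ofReal_mul_I]
  have hGc : ∀ p, Continuous (G p) := by
    intro p
    simp only [hG]
    fun_prop
  have hint : ∀ p, Integrable (G p) (volume.restrict (Ioo (-π) π)) := fun p =>
    (hGc p).integrableOn_Icc.mono_set Ioo_subset_Icc_self
  have hsum2 : Summable fun p : ℕ × ℕ => ‖c p.1‖ * ‖c p.2‖ :=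
    hc.mul_of_nonneg hc (fun _ => norm_nonneg _) (fun _ => norm_nonneg _)
  have hs : Summable fun p => ∫ θ in Ioo (-π) π, ‖G p θ‖ := by
    simp only [hnorm, integral_const, smul_eq_mul]
    exact hsum2.mul_left _
  have h1 := hasSum_integral_of_summable_integral_norm hint hs
  have h2 : ∀ θ : ℝ, ∑' p, G p θ = ((‖∑' n, c n * Complex.exp (θ * I) ^ n‖ ^ 2 : ℝ) : ℂ) := by
    intro θ
    have ha : Summable fun n => ‖c n * Complex.exp (θ * I) ^ n‖ := by
      simpa [Complex.norm_exp_ofReal_mul_I] using hc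
    have hb : Summable fun n => ‖(starRingEnd ℂ) (c n * Complex.exp (θ * I) ^ n)‖ := by
      simpa [Complex.norm_exp_ofReal_mul_I] using hc
    rw [hG, ← tsum_mul_tsum_of_summable_norm ha hb, ← Complex.conj_tsum, Complex.mul_conj,
      Complex.normSq_eq_norm_sq]
  have h3 : ∀ p : ℕ × ℕ, ∫ θ in Ioo (-π) π, G p θ =
      if p.1 = p.2 then ((2 * π * ‖c p.1‖ ^ 2 : ℝ) : ℂ) else 0 := by
    intro p
    have : ∀ θ : ℝ, G p θ = (c p.1 * (starRingEnd ℂ) (c p.2)) *
        Complex.exp ((((p.1 : ℤ) - (p.2 : ℤ) : ℤ) : ℂ) * θ * I) := by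
      intro θ
      simp only [hG, map_mul, ← Complex.exp_conj, Complex.conj_ofReal, Complex.conj_I,
        ← Complex.exp_nat_mul, map_natCast]
      rw [mul_mul_mul_comm, ← Complex.exp_add]
      congr 2
      push_cast
      ring
    simp only [this]
    rw [integral_const_mul, integral_exp_int]
    by_cases h : p.1 = p.2
    · rw [if_pos h, if_pos (by omega), ← h, Complex.mul_conj, Complex.normSq_eq_norm_sq]
      push_cast
      ring
    · rw [if_neg h, if_neg (by omega), mul_zero]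
  simp only [h2, h3] at h1
  rw [integral_complex_ofReal] at h1
  have h4 : HasSum (fun n : ℕ => ((2 * π * ‖c n‖ ^ 2 : ℝ) : ℂ))
      ((∫ θ in Ioo (-π) π, ‖∑' n, c n * Complex.exp (θ * I) ^ n‖ ^ 2 : ℝ) : ℂ) := by
    have hinj : Function.Injective (fun n : ℕ => (n, n)) := fun a b h => (Prod.mk.inj h).1
    rw [← hinj.hasSum_iff] at h1
    · simpa only [Function.comp_def, if_true] using h1
    · rintro ⟨a, b⟩ hab
      have : a ≠ b := by
        rintro rfl
        exact hab ⟨a, rfl⟩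
      simp [this]
  exact_mod_cast h4

/-- Parseval on the unit disc. -/
lemma parseval_disc (b : ℕ → ℂ) (hb : ∀ r : ℝ, 0 < r → r < 1 → Summable fun n => ‖b n‖ * r ^ n)
    (F : ℂ → ℂ) (hFm : Measurable F) (hF : ∀ z ∈ ball (0 : ℂ) 1, F z = ∑' n, b n * z ^ n) :
    ∫⁻ z in ball (0 : ℂ) 1, ENNReal.ofReal (‖F z‖ ^ 2) =
      ∑' n, ENNReal.ofReal (π * ‖b n‖ ^ 2 / ((n : ℝ) + 1)) := by
  rw [lintegral_ball_polar _ (by fun_prop)]
  have key : ∀ r ∈ Ioo (0 : ℝ) 1, ∫⁻ θ in Ioo (-π) π,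
      ENNReal.ofReal r * ENNReal.ofReal (‖F ((r : ℂ) * Complex.exp (θ * I))‖ ^ 2) =
      ∑' n, ENNReal.ofReal (2 * π * ‖b n‖ ^ 2) * ENNReal.ofReal (r ^ (2 * n + 1)) := by
    intro r hr
    have hc : Summable fun n => ‖b n * (r : ℂ) ^ n‖ := by
      simpa [abs_of_pos hr.1] using hb r hr.1 hr.2
    have hP := parseval_circle (fun n => b n * (r : ℂ) ^ n) hc
    have hF' : ∀ θ : ℝ, F ((r : ℂ) * Complex.exp (θ * I)) =
        ∑' n, b n * (r : ℂ) ^ n * Complex.exp (θ * I) ^ n := by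
      intro θ
      rw [hF]
      · simp only [mul_pow, mul_assoc]
      · simp [Complex.norm_exp_ofReal_mul_I, abs_of_pos hr.1, hr.2]
    simp only [hF']
    have hcont : Continuous fun θ : ℝ => ∑' n, b n * (r : ℂ) ^ n * Complex.exp (θ * I) ^ n := by
      apply continuous_tsum (u := fun n => ‖b n * (r : ℂ) ^ n‖) _ hc
      · intro n θ
        simp [Complex.norm_exp_ofReal_mul_I]
      · intro n
        fun_prop
    rw [lintegral_const_mul _ (by fun_prop), ← ofReal_integral_eq_lintegral_ofReal, ← hP.tsum_eq,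
      ENNReal.ofReal_tsum_of_nonneg (fun n => by positivity) hP.summable, ← ENNReal.tsum_mul_left]
    · congr 1
      ext n
      rw [← ENNReal.ofReal_mul hr.1.le, ← ENNReal.ofReal_mul (by positivity)]
      congr 1
      simp only [norm_mul, norm_pow, Complex.norm_real, Real.norm_eq_abs, abs_of_pos hr.1]
      ring
    · exact (hcont.norm.pow 2).integrableOn_Icc.mono_set Ioo_subset_Icc_self
    · exact Eventually.of_forall fun θ => by positivity
  rw [setLIntegral_congr_fun measurableSet_Ioo key, lintegral_tsum (fun n => by fun_prop)]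
  congr 1
  ext n
  rw [lintegral_const_mul _ (by fun_prop), lintegral_Ioo_pow, ← ENNReal.ofReal_mul (by positivity)]
  congr 1
  push_cast
  field_simp
  ring

end Pool.Agent.MP_f04e08_an

end MrgPart3

-- marker of a merged file
example : 731051 + 74718 = 731051 + 74718 := rfl
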