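import Mathlib.Analysis.Normed.Operator.Basic
import Mathlib.Analysis.CStarAlgebra.Classes
import Mathlib.Analysis.Normed.Lp.lpSpace

set_option autoImplicit false

namespace Pool.Agent.MP_f04e08_an

/-- Square summable complex sequences. -/
noncomputable abbrev Ell2 : Type := lp (fun _ : ℕ => ℂ) 2

/-- The function in the Dirichlet space attached to a square summable sequence `x`:
its `n`-th Taylor coefficient is `x n / sqrt (n + 1)`, so that the Dirichlet norm
`(∑ (n + 1) |a n| ^ 2) ^ (1 / 2)` of the function is the `ℓ²` norm of `x`. -/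
noncomputable def dirichletFun (x : Ell2) (z : ℂ) : ℂ :=
  ∑' n : ℕ, x n / (Real.sqrt ((n : ℝ) + 1) : ℂ) * z ^ n

/-- Bounded linear operators on a complex normed space. -/
abbrev Op (E : Type) [NormedAddCommGroup E] [NormedSpace ℂ E] : Type := E →L[ℂ] E

/-- When the vectors `x` of `E` are read as functions `ev x` on the unit disc,
`T` acts as the multiplication by `φ`. -/
def IsMultiplicationBy {E : Type} [NormedAddCommGroup E] [NormedSpace ℂ E] (ev : E → ℂ → ℂ)
    (φ : ℂ → ℂ) (T : Op E) : Prop :=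
  ∀ (x : E) (z : ℂ), ‖z‖ < 1 → ev (T x) z = φ z * ev x z

/-- `T` is power bounded. -/
def IsPowerBounded {E : Type} [NormedAddCommGroup E] [NormedSpace ℂ E] (T : Op E) : Prop :=
  ∃ C : ℝ, ∀ n : ℕ, ‖T ^ n‖ ≤ C

/-- The Cesaro mean `(n + 1)⁻¹ ∑ k ≤ n, T ^ k`. -/
noncomputable def cesaroMean {E : Type} [NormedAddCommGroup E] [NormedSpace ℂ E]
    (T : Op E) (n : ℕ) : Op E :=
  ((n : ℂ) + 1)⁻¹ • ∑ k ∈ Finset.range (n + 1), T ^ k

/-- `T` is uniformly Kreiss bounded. -/
def IsUniformlyKreissBounded {E : Type} [NormedAddCommGroup E] [NormedSpace ℂ E]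
    (T : Op E) : Prop :=
  ∃ C : ℝ, ∀ (n : ℕ) (l : ℂ), ‖l‖ = 1 → ‖cesaroMean (l • T) n‖ ≤ C

end Pool.Agent.MP_f04e08_an
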