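import Mathlib.Data.Int.Star
import Mathlib.Algebra.Ring.IsFormallyReal
import Mathlib.Analysis.Complex.TaylorSeries
import Mathlib.NumberTheory.Harmonic.Bounds
import Mathlib.RingTheory.SimpleRing.Principal
import Mathlib.Order.CompletePartialOrder
import Pool.Agent.MP_f04e08_an.Polar
import Pool.Agent.MP_f04e08_an.Defs

-- ======== part 0: formerly Pool.Agent.MP_f04e08_an.Space
section MrgPart0

set_option autoImplicit false

open MeasureTheory Set Metric Complex Filter
open scoped ENNReal Real Topology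

namespace Pool.Agent.MP_f04e08_an

noncomputable abbrev H : Type := Ell2

/-- The Dirichlet energy over the unit disc. -/
noncomputable def energy (f : ℂ → ℂ) : ℝ≥0∞ :=
  ∫⁻ z in ball (0 : ℂ) 1, ENNReal.ofReal (‖deriv f z‖ ^ 2)

/-- The diagonal of the reproducing kernel. -/
noncomputable def kerK (z : ℂ) : ℝ≥0∞ :=
  ∑' n : ℕ, ENNReal.ofReal (‖z‖ ^ (2 * n) / ((n : ℝ) + 1))

lemma measurable_kerK : Measurable kerK := by
  unfold kerK
  apply Measurable.tsum
  intro n
  fun_prop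

lemma sqrt_pos' (n : ℕ) : 0 < Real.sqrt ((n : ℝ) + 1) := Real.sqrt_pos.mpr (by positivity)

lemma one_le_sqrt' (n : ℕ) : 1 ≤ Real.sqrt ((n : ℝ) + 1) := by
  rw [Real.one_le_sqrt]
  have : (0 : ℝ) ≤ n := Nat.cast_nonneg n
  linarith

lemma hasSum_norm_sq (x : H) : HasSum (fun n => ‖x n‖ ^ 2) (‖x‖ ^ 2) := by
  have := lp.hasSum_norm (p := 2) (by simp) x
  simpa using this

lemma norm_apply_le (x : H) (n : ℕ) : ‖x n‖ ≤ ‖x‖ := lp.norm_apply_le_norm (by simp) x n

/-- General facts on power series with bounded coefficients. -/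
lemma summable_of_bdd (a : ℕ → ℂ) (C : ℝ) (ha : ∀ n, ‖a n‖ ≤ C) (r : ℝ) (h0 : 0 ≤ r) (h1 : r < 1) :
    Summable fun n => ‖a n‖ * r ^ n :=
  Summable.of_nonneg_of_le (fun n => by positivity)
    (fun n => mul_le_mul_of_nonneg_right (ha n) (by positivity))
    ((summable_geometric_of_lt_one h0 h1).mul_left C)

lemma series_facts (a : ℕ → ℂ) (ha : ∀ r : ℝ, 0 < r → r < 1 → Summable fun n => ‖a n‖ * r ^ n) :
    DifferentiableOn ℂ (fun z => ∑' n, a n * z ^ n) (ball 0 1) ∧
    ∀ z ∈ ball (0 : ℂ) 1, HasSum (fun n : ℕ => (((n : ℂ) + 1) * a (n + 1)) * z ^ n)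
      (deriv (fun z => ∑' n, a n * z ^ n) z) := by
  have key : ∀ z ∈ ball (0 : ℂ) 1, ∃ s : ℝ, 0 < s ∧ s < 1 ∧ z ∈ ball (0 : ℂ) s := by
    intro z hz
    rw [mem_ball_zero_iff] at hz
    refine ⟨(‖z‖ + 1) / 2, by positivity, by linarith, ?_⟩
    rw [mem_ball_zero_iff]
    linarith
  have hb : ∀ s : ℝ, ∀ (n : ℕ) (w : ℂ), w ∈ ball (0 : ℂ) s → ‖a n * w ^ n‖ ≤ ‖a n‖ * s ^ n := by
    intro s n w hw
    rw [mem_ball_zero_iff] at hw
    rw [norm_mul, norm_pow]
    gcongr
  have hd : ∀ (s : ℝ) (n : ℕ), DifferentiableOn ℂ (fun z : ℂ => a n * z ^ n) (ball 0 s) := by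
    intro s n
    fun_prop
  constructor
  · intro z hz
    obtain ⟨s, hs0, hs1, hzs⟩ := key z hz
    have := Complex.differentiableOn_tsum_of_summable_norm (ha s hs0 hs1) (hd s) isOpen_ball (hb s)
    exact (this.differentiableAt (isOpen_ball.mem_nhds hzs)).differentiableWithinAt
  · intro z hz
    obtain ⟨s, hs0, hs1, hzs⟩ := key z hz
    have := Complex.hasSum_deriv_of_summable_norm (ha s hs0 hs1) (hd s) isOpen_ball (hb s) hzs
    rw [← hasSum_nat_add_iff' 1] at this
    simp only [Finset.range_one, Finset.sum_singleton, pow_zero, mul_one, deriv_const',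
      sub_zero] at this
    have e : (fun n : ℕ => (((n : ℂ) + 1) * a (n + 1)) * z ^ n) =
        fun n => deriv (fun z => a (n + 1) * z ^ (n + 1)) z := by
      ext n
      rw [deriv_const_mul _ (by fun_prop)]
      simp
      ring
    rw [e]
    exact this

lemma summable_deriv_coeff (a : ℕ → ℂ)
    (ha : ∀ r : ℝ, 0 < r → r < 1 → Summable fun n => ‖a n‖ * r ^ n) :
    ∀ r : ℝ, 0 < r → r < 1 → Summable fun n : ℕ => ‖((n : ℂ) + 1) * a (n + 1)‖ * r ^ n := by
  intro r h0 h1
  have hz : (r : ℂ) ∈ ball (0 : ℂ) 1 := by simp [abs_of_pos h0, h1]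
  have := ((series_facts a ha).2 r hz).summable
  rw [← summable_norm_iff] at this
  simpa [abs_of_pos h0] using this

lemma energy_series (a : ℕ → ℂ) (ha : ∀ r : ℝ, 0 < r → r < 1 → Summable fun n => ‖a n‖ * r ^ n)
    (f : ℂ → ℂ) (hf : ∀ z ∈ ball (0 : ℂ) 1, f z = ∑' n, a n * z ^ n) :
    energy f = ∑' n : ℕ, ENNReal.ofReal (π * (((n : ℝ) + 1) * ‖a (n + 1)‖ ^ 2)) := by
  unfold energy
  rw [parseval_disc (fun n => ((n : ℂ) + 1) * a (n + 1)) (summable_deriv_coeff a ha) _
    (measurable_deriv f)]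
  · congr 1
    ext n
    congr 1
    have : ‖((n : ℂ) + 1)‖ = (n : ℝ) + 1 := by
      rw [← Nat.cast_succ, Complex.norm_natCast]
      simp
    rw [norm_mul, this]
    field_simp
  · intro z hz
    rw [((series_facts a ha).2 z hz).tsum_eq]
    apply Filter.EventuallyEq.deriv_eq
    filter_upwards [isOpen_ball.mem_nhds hz] with w hw using hf w hw

/-- The Taylor coefficients of `dirichletFun x`. -/
noncomputable def coef (x : H) (n : ℕ) : ℂ := x n / (Real.sqrt ((n : ℝ) + 1) : ℂ)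

lemma norm_coef (x : H) (n : ℕ) : ‖coef x n‖ = ‖x n‖ / Real.sqrt ((n : ℝ) + 1) := by
  simp [coef, abs_of_pos (sqrt_pos' n)]

lemma norm_coef_sq (x : H) (n : ℕ) : ((n : ℝ) + 1) * ‖coef x n‖ ^ 2 = ‖x n‖ ^ 2 := by
  rw [norm_coef, div_pow, Real.sq_sqrt (by positivity)]
  field_simp

lemma norm_coef_le (x : H) (n : ℕ) : ‖coef x n‖ ≤ ‖x‖ := by
  rw [norm_coef]
  exact (div_le_self (norm_nonneg _) (one_le_sqrt' n)).trans (norm_apply_le x n)

lemma summable_coef (x : H) : ∀ r : ℝ, 0 < r → r < 1 → Summable fun n => ‖coef x n‖ * r ^ n :=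
  fun r h0 h1 => summable_of_bdd _ _ (norm_coef_le x) r h0.le h1

lemma ev_eq (x : H) : dirichletFun x = fun z => ∑' n, coef x n * z ^ n := rfl

lemma summable_ev (x : H) (z : ℂ) (hz : z ∈ ball (0 : ℂ) 1) :
    Summable fun n => coef x n * z ^ n := by
  rw [mem_ball_zero_iff] at hz
  apply Summable.of_norm
  simpa using summable_of_bdd _ _ (norm_coef_le x) ‖z‖ (norm_nonneg _) hz

lemma differentiableOn_ev (x : H) : DifferentiableOn ℂ (dirichletFun x) (ball 0 1) :=
  (series_facts _ (summable_coef x)).1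

lemma ev_zero (x : H) : dirichletFun x 0 = x 0 := by
  rw [ev_eq]
  simp only
  rw [tsum_eq_single 0]
  · simp [coef]
  · intro n hn
    simp [hn]

lemma energy_ev_le (x : H) : energy (dirichletFun x) ≤ ENNReal.ofReal (π * ‖x‖ ^ 2) := by
  rw [energy_series _ (summable_coef x) (dirichletFun x) (fun z _ => rfl)]
  have h1 := (hasSum_norm_sq x).mul_left π
  rw [← h1.tsum_eq, ENNReal.ofReal_tsum_of_nonneg (fun n => by positivity) h1.summable]
  calc _ ≤ ∑' n : ℕ, ENNReal.ofReal (π * ‖x (n + 1)‖ ^ 2) := by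
        apply ENNReal.tsum_le_tsum
        intro n
        apply ENNReal.ofReal_le_ofReal
        rw [← norm_coef_sq x (n + 1)]
        gcongr
        linarith
    _ ≤ _ := ENNReal.tsum_comp_le_tsum_of_injective (f := fun n : ℕ => n + 1)
        (add_left_injective 1) (fun n => ENNReal.ofReal (π * ‖x n‖ ^ 2))

lemma norm_sq_le_energy (x : H) :
    ENNReal.ofReal (π * ‖x‖ ^ 2) ≤
      ENNReal.ofReal (π * ‖dirichletFun x 0‖ ^ 2) + 2 * energy (dirichletFun x) := by
  rw [energy_series _ (summable_coef x) (dirichletFun x) (fun z _ => rfl)]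
  have h1 := (hasSum_norm_sq x).mul_left π
  rw [← h1.tsum_eq, ENNReal.ofReal_tsum_of_nonneg (fun n => by positivity) h1.summable,
    tsum_eq_zero_add' ENNReal.summable, ev_zero, ← ENNReal.tsum_mul_left]
  gcongr with n
  rw [← norm_coef_sq x (n + 1), ← ENNReal.ofReal_ofNat 2, ← ENNReal.ofReal_mul (by norm_num)]
  apply ENNReal.ofReal_le_ofReal
  push_cast
  have : (0 : ℝ) ≤ n := Nat.cast_nonneg n
  have h2 : 0 ≤ π * ‖coef x (n + 1)‖ ^ 2 := by positivity
  nlinarith

lemma exists_ev (f : ℂ → ℂ) (hf : DifferentiableOn ℂ f (ball 0 1)) (hE : energy f ≠ ∞) :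
    ∃ x : H, ∀ z ∈ ball (0 : ℂ) 1, dirichletFun x z = f z := by
  set a : ℕ → ℂ := fun n => (n.factorial : ℂ)⁻¹ * iteratedDeriv n f 0 with ha
  have hs : ∀ z ∈ ball (0 : ℂ) 1, HasSum (fun n => a n * z ^ n) (f z) := by
    intro z hz
    have := Complex.hasSum_taylorSeries_on_ball hf hz
    have e : (fun n => a n * z ^ n) =
        fun n => (n.factorial : ℂ)⁻¹ • (z - 0) ^ n • iteratedDeriv n f 0 := by
      ext n
      simp [ha]
      ring
    rw [e]
    exact this
  have hsum : ∀ r : ℝ, 0 < r → r < 1 → Summable fun n => ‖a n‖ * r ^ n := by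
    intro r h0 h1
    have hz : (r : ℂ) ∈ ball (0 : ℂ) 1 := by simp [abs_of_pos h0, h1]
    have := (hs r hz).summable
    rw [← summable_norm_iff] at this
    simpa [abs_of_pos h0] using this
  have hE' := energy_series a hsum f (fun z hz => (hs z hz).tsum_eq.symm)
  rw [hE'] at hE
  have h1 : Summable fun n : ℕ => π * (((n : ℝ) + 1) * ‖a (n + 1)‖ ^ 2) := by
    have := ENNReal.summable_toReal hE
    refine this.congr fun n => ?_
    rw [ENNReal.toReal_ofReal (by positivity)]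
  have h2 : Summable fun n : ℕ => ((n : ℝ) + 1) * ‖a n‖ ^ 2 := by
    rw [← summable_nat_add_iff 1]
    refine Summable.of_nonneg_of_le (fun n => by positivity) (fun n => ?_) (h1.mul_left (2 / π))
    have : (0 : ℝ) ≤ n := Nat.cast_nonneg n
    have h3 : 0 ≤ ‖a (n + 1)‖ ^ 2 := by positivity
    have h4 : 2 / π * (π * (((n : ℝ) + 1) * ‖a (n + 1)‖ ^ 2)) =
        2 * (((n : ℝ) + 1) * ‖a (n + 1)‖ ^ 2) := by field_simp
    rw [h4]
    push_cast
    nlinarith
  have hmem : Memℓp (fun n : ℕ => (Real.sqrt ((n : ℝ) + 1) : ℂ) * a n) 2 := by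
    apply memℓp_gen
    refine h2.congr fun n => ?_
    simp [abs_of_pos (sqrt_pos' n), mul_pow, Real.sq_sqrt (show (0 : ℝ) ≤ (n : ℝ) + 1 by positivity)]
  refine ⟨⟨_, hmem⟩, fun z hz => ?_⟩
  rw [← (hs z hz).tsum_eq, ev_eq]
  simp only
  congr 1
  ext n
  congr 1
  have : (Real.sqrt ((n : ℝ) + 1) : ℂ) ≠ 0 := by exact_mod_cast (sqrt_pos' n).ne'
  simp only [coef]
  field_simp

lemma ev_add (x y : H) (z : ℂ) (hz : z ∈ ball (0 : ℂ) 1) :
    dirichletFun (x + y) z = dirichletFun x z + dirichletFun y z := by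
  simp only [ev_eq]
  rw [← (summable_ev x z hz).tsum_add (summable_ev y z hz)]
  congr 1
  ext n
  simp [coef]
  ring

lemma ev_smul (c : ℂ) (x : H) (z : ℂ) :
    dirichletFun (c • x) z = c * dirichletFun x z := by
  simp only [ev_eq]
  rw [← tsum_mul_left]
  congr 1
  ext n
  simp [coef]
  ring

lemma ev_sum {ι : Type*} (s : Finset ι) (x : ι → H) (z : ℂ) (hz : z ∈ ball (0 : ℂ) 1) :
    dirichletFun (∑ i ∈ s, x i) z = ∑ i ∈ s, dirichletFun (x i) z := by
  classical
  induction s using Finset.induction_on with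
  | empty => simp [ev_eq, coef]
  | insert i s hi ih => rw [Finset.sum_insert hi, Finset.sum_insert hi, ev_add _ _ _ hz, ih]

lemma energy_congr (f g : ℂ → ℂ) (h : ∀ z ∈ ball (0 : ℂ) 1, f z = g z) : energy f = energy g := by
  unfold energy
  apply setLIntegral_congr_fun measurableSet_ball
  intro z hz
  have : deriv f z = deriv g z := by
    apply Filter.EventuallyEq.deriv_eq
    filter_upwards [isOpen_ball.mem_nhds hz] with w hw using h w hw
  simp only [this]

lemma ev_inj (x y : H) (h : ∀ z ∈ ball (0 : ℂ) 1, dirichletFun x z = dirichletFun y z) : x = y := by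
  have h1 : ∀ z ∈ ball (0 : ℂ) 1, dirichletFun (x + (-1 : ℂ) • y) z = 0 := by
    intro z hz
    rw [ev_add _ _ _ hz, ev_smul, h z hz]
    ring
  have h2 := norm_sq_le_energy (x + (-1 : ℂ) • y)
  rw [energy_congr _ (fun _ => 0) h1, h1 0 (by simp)] at h2
  simp only [energy, deriv_const', norm_zero, ne_eq, OfNat.ofNat_ne_zero, not_false_eq_true,
    zero_pow, ENNReal.ofReal_zero, lintegral_const, zero_mul, mul_zero, add_zero, nonpos_iff_eq_zero,
    ENNReal.ofReal_eq_zero] at h2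
  have h3 : ‖x + (-1 : ℂ) • y‖ ^ 2 ≤ 0 := by
    by_contra h4
    have := mul_pos Real.pi_pos (not_le.mp h4)
    linarith
  have h4 : ‖x + (-1 : ℂ) • y‖ = 0 := by
    have := sq_nonneg ‖x + (-1 : ℂ) • y‖
    exact pow_eq_zero_iff (two_ne_zero) |>.mp (le_antisymm h3 this)
  rw [norm_eq_zero] at h4
  rw [neg_one_smul, ← sub_eq_add_neg, sub_eq_zero] at h4
  exact h4

lemma ev_sq_le (x : H) (z : ℂ) (hz : z ∈ ball (0 : ℂ) 1) :
    ENNReal.ofReal (‖dirichletFun x z‖ ^ 2) ≤ kerK z * ENNReal.ofReal (‖x‖ ^ 2) := by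
  have hz' := mem_ball_zero_iff.mp hz
  have hK : Summable fun n : ℕ => ‖z‖ ^ (2 * n) / ((n : ℝ) + 1) := by
    refine Summable.of_nonneg_of_le (fun n => by positivity) (fun n => ?_)
      (summable_geometric_of_lt_one (norm_nonneg z) hz')
    have : (0 : ℝ) ≤ n := Nat.cast_nonneg n
    calc ‖z‖ ^ (2 * n) / ((n : ℝ) + 1) ≤ ‖z‖ ^ (2 * n) := div_le_self (by positivity) (by linarith)
      _ ≤ ‖z‖ ^ n := pow_le_pow_of_le_one (norm_nonneg _) hz'.le (by omega)
  unfold kerK
  rw [← ENNReal.ofReal_tsum_of_nonneg (fun n => by positivity) hK,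
    ← ENNReal.ofReal_mul (tsum_nonneg fun n => by positivity)]
  apply ENNReal.ofReal_le_ofReal
  have hlim : Tendsto (fun N => ‖∑ n ∈ Finset.range N, coef x n * z ^ n‖ ^ 2) atTop
      (𝓝 (‖dirichletFun x z‖ ^ 2)) :=
    ((summable_ev x z hz).hasSum.tendsto_sum_nat.norm).pow 2
  refine le_of_tendsto' hlim fun N => ?_
  calc ‖∑ n ∈ Finset.range N, coef x n * z ^ n‖ ^ 2
      ≤ (∑ n ∈ Finset.range N, (‖z‖ ^ n / Real.sqrt ((n : ℝ) + 1)) * ‖x n‖) ^ 2 := by
        gcongr
        refine (norm_sum_le _ _).trans (le_of_eq ?_)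
        apply Finset.sum_congr rfl
        intro n _
        rw [norm_mul, norm_coef, norm_pow]
        ring
    _ ≤ (∑ n ∈ Finset.range N, (‖z‖ ^ n / Real.sqrt ((n : ℝ) + 1)) ^ 2) *
          ∑ n ∈ Finset.range N, ‖x n‖ ^ 2 := Finset.sum_mul_sq_le_sq_mul_sq _ _ _
    _ ≤ _ := by
        apply mul_le_mul
        · have : ∀ n : ℕ, (‖z‖ ^ n / Real.sqrt ((n : ℝ) + 1)) ^ 2 = ‖z‖ ^ (2 * n) / ((n : ℝ) + 1) := by
            intro n
            rw [div_pow, Real.sq_sqrt (by positivity), ← pow_mul, mul_comm]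
          simp only [this]
          exact hK.sum_le_tsum _ (fun n _ => by positivity)
        · exact sum_le_hasSum _ (fun n _ => by positivity) (hasSum_norm_sq x)
        · positivity
        · exact tsum_nonneg fun n => by positivity

lemma energy_mul_le (h : ℂ → ℂ) (hd : DifferentiableOn ℂ h (ball 0 1))
    (hb : ∀ z ∈ ball (0 : ℂ) 1, ‖h z‖ ≤ 1) (M : ℝ) (hM0 : 0 ≤ M)
    (hM : ∫⁻ z in ball (0 : ℂ) 1, ENNReal.ofReal (‖deriv h z‖ ^ 2) * kerK z ≤ ENNReal.ofReal M)
    (x : H) :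
    energy (fun z => h z * dirichletFun x z) ≤ ENNReal.ofReal ((2 * M + 2 * π) * ‖x‖ ^ 2) := by
  have h1 : energy (fun z => h z * dirichletFun x z) ≤
      ∫⁻ z in ball (0 : ℂ) 1, (2 * ENNReal.ofReal (‖x‖ ^ 2) *
        (ENNReal.ofReal (‖deriv h z‖ ^ 2) * kerK z) +
        2 * ENNReal.ofReal (‖deriv (dirichletFun x) z‖ ^ 2)) := by
    unfold energy
    apply setLIntegral_mono' measurableSet_ball
    intro z hz
    have hn := isOpen_ball.mem_nhds hz
    rw [deriv_fun_mul (hd.differentiableAt hn) ((differentiableOn_ev x).differentiableAt hn)]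
    have e1 : ‖deriv h z * dirichletFun x z + h z * deriv (dirichletFun x) z‖ ^ 2 ≤
        2 * (‖deriv h z‖ ^ 2 * ‖dirichletFun x z‖ ^ 2) + 2 * ‖deriv (dirichletFun x) z‖ ^ 2 := by
      have e2 : ‖deriv h z * dirichletFun x z + h z * deriv (dirichletFun x) z‖ ≤
          ‖deriv h z‖ * ‖dirichletFun x z‖ + ‖deriv (dirichletFun x) z‖ := by
        refine (norm_add_le _ _).trans ?_
        rw [norm_mul, norm_mul]
        have := hb z hz
        have := norm_nonneg (deriv (dirichletFun x) z)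
        nlinarith
      calc _ ≤ (‖deriv h z‖ * ‖dirichletFun x z‖ + ‖deriv (dirichletFun x) z‖) ^ 2 := by gcongr
        _ ≤ _ := by
          nlinarith [sq_nonneg (‖deriv h z‖ * ‖dirichletFun x z‖ - ‖deriv (dirichletFun x) z‖)]
    calc _ ≤ ENNReal.ofReal (2 * (‖deriv h z‖ ^ 2 * ‖dirichletFun x z‖ ^ 2) +
          2 * ‖deriv (dirichletFun x) z‖ ^ 2) := ENNReal.ofReal_le_ofReal e1
      _ = 2 * (ENNReal.ofReal (‖deriv h z‖ ^ 2) * ENNReal.ofReal (‖dirichletFun x z‖ ^ 2)) +
          2 * ENNReal.ofReal (‖deriv (dirichletFun x) z‖ ^ 2) := by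
        rw [ENNReal.ofReal_add (by positivity) (by positivity), ENNReal.ofReal_mul (by norm_num),
          ENNReal.ofReal_mul (by norm_num), ENNReal.ofReal_mul (by positivity)]
        simp
      _ ≤ 2 * (ENNReal.ofReal (‖deriv h z‖ ^ 2) * (kerK z * ENNReal.ofReal (‖x‖ ^ 2))) +
          2 * ENNReal.ofReal (‖deriv (dirichletFun x) z‖ ^ 2) := by
        gcongr
        exact ev_sq_le x z hz
      _ = _ := by ring
  refine h1.trans ?_
  have hm1 : Measurable fun z => ENNReal.ofReal (‖deriv h z‖ ^ 2) * kerK z := by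
    apply Measurable.mul _ measurable_kerK
    have := measurable_deriv h
    fun_prop
  have hm2 : Measurable fun z => ENNReal.ofReal (‖deriv (dirichletFun x) z‖ ^ 2) := by
    have := measurable_deriv (dirichletFun x)
    fun_prop
  rw [lintegral_add_left (hm1.const_mul _), lintegral_const_mul _ hm1, lintegral_const_mul _ hm2]
  have h2 := energy_ev_le x
  unfold energy at h2
  calc _ ≤ 2 * ENNReal.ofReal (‖x‖ ^ 2) * ENNReal.ofReal M + 2 * ENNReal.ofReal (π * ‖x‖ ^ 2) := by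
        gcongr
    _ = _ := by
        have e : (2 * M + 2 * π) * ‖x‖ ^ 2 = 2 * ‖x‖ ^ 2 * M + 2 * (π * ‖x‖ ^ 2) := by ring
        rw [e, ENNReal.ofReal_add (by positivity) (by positivity),
          ENNReal.ofReal_mul (p := 2 * ‖x‖ ^ 2) (by positivity),
          ENNReal.ofReal_mul (by norm_num : (0 : ℝ) ≤ 2),
          ENNReal.ofReal_mul (by norm_num : (0 : ℝ) ≤ 2)]
        simp

lemma norm_le_of_mul (h : ℂ → ℂ) (hd : DifferentiableOn ℂ h (ball 0 1))
    (hb : ∀ z ∈ ball (0 : ℂ) 1, ‖h z‖ ≤ 1) (M : ℝ) (hM0 : 0 ≤ M)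
    (hM : ∫⁻ z in ball (0 : ℂ) 1, ENNReal.ofReal (‖deriv h z‖ ^ 2) * kerK z ≤ ENNReal.ofReal M)
    (x y : H) (hxy : ∀ z ∈ ball (0 : ℂ) 1, dirichletFun y z = h z * dirichletFun x z) :
    ‖y‖ ≤ (5 + 4 * M) * ‖x‖ := by
  have h1 := norm_sq_le_energy y
  rw [energy_congr _ _ hxy, hxy 0 (by simp)] at h1
  have h2 := energy_mul_le h hd hb M hM0 hM x
  have h3 : ‖h 0 * dirichletFun x 0‖ ≤ ‖x‖ := by
    rw [norm_mul, ev_zero]
    have := hb 0 (by simp)
    have := norm_apply_le x 0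
    have := norm_nonneg (x 0)
    nlinarith
  have h4 : ENNReal.ofReal (π * ‖y‖ ^ 2) ≤
      ENNReal.ofReal (π * ‖x‖ ^ 2 + 2 * ((2 * M + 2 * π) * ‖x‖ ^ 2)) := by
    refine h1.trans ?_
    rw [ENNReal.ofReal_add (by positivity) (by positivity), ENNReal.ofReal_mul (by norm_num : (0 : ℝ) ≤ 2)]
    gcongr
    simp
  rw [ENNReal.ofReal_le_ofReal_iff (by positivity)] at h4
  have hpi := Real.pi_gt_three
  have h5 : ‖y‖ ^ 2 ≤ ((5 + 4 * M) * ‖x‖) ^ 2 := by
    have h6 : π * ‖y‖ ^ 2 ≤ π * ((5 + 4 * M) * ‖x‖ ^ 2) := by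
      have : 0 ≤ M * ‖x‖ ^ 2 := by positivity
      nlinarith
    have h7 : ‖y‖ ^ 2 ≤ (5 + 4 * M) * ‖x‖ ^ 2 := le_of_mul_le_mul_left h6 Real.pi_pos
    have h8 : (5 + 4 * M) ≤ (5 + 4 * M) ^ 2 := by nlinarith
    rw [mul_pow]
    exact h7.trans (mul_le_mul_of_nonneg_right h8 (by positivity))
  exact (pow_le_pow_iff_left₀ (norm_nonneg _) (by positivity) two_ne_zero).mp h5

lemma exists_mul (h : ℂ → ℂ) (hd : DifferentiableOn ℂ h (ball 0 1))
    (hb : ∀ z ∈ ball (0 : ℂ) 1, ‖h z‖ ≤ 1) (M : ℝ) (hM0 : 0 ≤ M)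
    (hM : ∫⁻ z in ball (0 : ℂ) 1, ENNReal.ofReal (‖deriv h z‖ ^ 2) * kerK z ≤ ENNReal.ofReal M) :
    ∃ T : H →L[ℂ] H, ∀ x : H, ∀ z ∈ ball (0 : ℂ) 1,
      dirichletFun (T x) z = h z * dirichletFun x z := by
  have key : ∀ x : H, ∃ y : H, ∀ z ∈ ball (0 : ℂ) 1,
      dirichletFun y z = h z * dirichletFun x z := by
    intro x
    apply exists_ev _ (hd.mul (differentiableOn_ev x))
    exact ne_top_of_le_ne_top ENNReal.ofReal_ne_top (energy_mul_le h hd hb M hM0 hM x)
  choose T hT using key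
  let L : H →ₗ[ℂ] H :=
    { toFun := T
      map_add' := fun x y => by
        apply ev_inj
        intro z hz
        rw [hT _ z hz, ev_add _ _ _ hz, ev_add _ _ _ hz, hT _ z hz, hT _ z hz]
        ring
      map_smul' := fun c x => by
        apply ev_inj
        intro z hz
        rw [hT _ z hz, RingHom.id_apply, ev_smul, ev_smul, hT _ z hz]
        ring }
  refine ⟨L.mkContinuous (5 + 4 * M) fun x => ?_, fun x z hz => hT x z hz⟩
  exact norm_le_of_mul h hd hb M hM0 hM x (T x) (hT x)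

/-- The reduction: it is enough to find a function with the right integral estimates. -/
theorem reduction (φ : ℂ → ℂ) (hd : DifferentiableOn ℂ φ (ball 0 1))
    (hb : ∀ z ∈ ball (0 : ℂ) 1, ‖φ z‖ ≤ 1) (M : ℝ) (hM0 : 0 ≤ M)
    (hM : ∀ (n : ℕ) (l : ℂ), ‖l‖ = 1 → ∫⁻ z in ball (0 : ℂ) 1, ENNReal.ofReal
      (‖deriv (fun w => ((n : ℂ) + 1)⁻¹ * ∑ k ∈ Finset.range (n + 1), (l * φ w) ^ k) z‖ ^ 2) *
        kerK z ≤ ENNReal.ofReal M)
    (hN : ∀ C : ℝ, ∃ n : ℕ, ENNReal.ofReal C < energy fun z => φ z ^ n) :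
    ∃ T : H →L[ℂ] H,
      (∀ x : H, ∀ z ∈ ball (0 : ℂ) 1, dirichletFun (T x) z = φ z * dirichletFun x z) ∧
      (∃ C : ℝ, ∀ (n : ℕ) (l : ℂ), ‖l‖ = 1 →
        ‖((n : ℂ) + 1)⁻¹ • ∑ k ∈ Finset.range (n + 1), (l • T) ^ k‖ ≤ C) ∧
      ¬ ∃ C : ℝ, ∀ n : ℕ, ‖T ^ n‖ ≤ C := by
  have hφ : ∫⁻ z in ball (0 : ℂ) 1, ENNReal.ofReal (‖deriv φ z‖ ^ 2) * kerK z ≤
      ENNReal.ofReal (4 * M) := by
    have h1 := hM 1 1 (by simp)
    have h2 : ∀ z ∈ ball (0 : ℂ) 1, ENNReal.ofReal (‖deriv φ z‖ ^ 2) * kerK z = 4 * (ENNReal.ofReal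
      (‖deriv (fun w => (((1 : ℕ) : ℂ) + 1)⁻¹ * ∑ k ∈ Finset.range (1 + 1), (1 * φ w) ^ k) z‖ ^ 2) *
        kerK z) := by
      intro z hz
      have hn := isOpen_ball.mem_nhds hz
      have h3 : (fun w => (((1 : ℕ) : ℂ) + 1)⁻¹ * ∑ k ∈ Finset.range (1 + 1), (1 * φ w) ^ k) =
          fun w => 2⁻¹ * (1 + φ w) := by
        ext w
        simp [Finset.sum_range_succ]
        norm_num
      rw [h3, deriv_const_mul _ (by have := hd.differentiableAt hn; fun_prop), deriv_const_add,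
        ← mul_assoc, ← ENNReal.ofReal_ofNat 4, ← ENNReal.ofReal_mul (by norm_num)]
      congr 2
      rw [norm_mul]
      simp
      ring
    rw [setLIntegral_congr_fun measurableSet_ball h2, lintegral_const_mul' _ _ (by simp),
      ENNReal.ofReal_mul (by norm_num)]
    gcongr
    simp
  obtain ⟨T, hT⟩ := exists_mul φ hd hb (4 * M) (by positivity) hφ
  have hpow : ∀ (l : ℂ) (k : ℕ) (x : H), ∀ z ∈ ball (0 : ℂ) 1,
      dirichletFun (((l • T) ^ k) x) z = (l * φ z) ^ k * dirichletFun x z := by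
    intro l k
    induction k with
    | zero => intro x z _; simp
    | succ k ih =>
      intro x z hz
      rw [pow_succ', mul_apply_eq_comp, _root_.smul_apply, ev_smul,
        hT _ z hz, ih x z hz]
      ring
  refine ⟨T, hT, ⟨5 + 4 * M, fun n l hl => ?_⟩, ?_⟩
  · apply ContinuousLinearMap.opNorm_le_bound _ (by positivity)
    intro x
    apply norm_le_of_mul _ _ _ M hM0 (hM n l hl)
    · intro z hz
      rw [_root_.smul_apply, ev_smul, _root_.sum_apply, ev_sum _ _ _ hz,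
        Finset.sum_congr rfl fun k _ => hpow l k x z hz, ← Finset.sum_mul]
      ring
    · fun_prop
    · intro z hz
      rw [norm_mul, norm_inv]
      have h1 : ‖((n : ℂ) + 1)‖ = (n : ℝ) + 1 := by
        rw [← Nat.cast_succ, Complex.norm_natCast]
        simp
      have h2 : ‖∑ k ∈ Finset.range (n + 1), (l * φ z) ^ k‖ ≤ (n : ℝ) + 1 := by
        refine (norm_sum_le _ _).trans ?_
        calc _ ≤ ∑ _k ∈ Finset.range (n + 1), (1 : ℝ) := by
              apply Finset.sum_le_sum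
              intro k _
              rw [norm_pow, norm_mul, hl, one_mul]
              exact pow_le_one₀ (norm_nonneg _) (hb z hz)
          _ = _ := by simp
      rw [h1, inv_mul_le_iff₀ (by positivity)]
      simpa using h2
  · rintro ⟨C, hC⟩
    obtain ⟨n, hn⟩ := hN (π * C ^ 2)
    obtain ⟨x₀, hx₀⟩ : ∃ x₀ : H, x₀ = lp.single 2 0 (1 : ℂ) := ⟨_, rfl⟩
    have hx1 : ‖x₀‖ = 1 := by
      rw [hx₀, lp.norm_single (by simp)]
      simp
    have hx2 : ∀ z, dirichletFun x₀ z = 1 := by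
      intro z
      rw [ev_eq]
      simp only
      rw [tsum_eq_single 0]
      · simp [coef, hx₀]
      · intro n hn
        simp [coef, hx₀, lp.single_apply, hn]
    have h1 : ∀ z ∈ ball (0 : ℂ) 1, dirichletFun ((T ^ n) x₀) z = φ z ^ n := by
      intro z hz
      have := hpow 1 n x₀ z hz
      simpa [hx2] using this
    have h2 := energy_ev_le ((T ^ n) x₀)
    rw [energy_congr _ _ h1] at h2
    have h3 : ‖(T ^ n) x₀‖ ≤ C := by
      refine ((T ^ n).le_opNorm x₀).trans ?_
      rw [hx1, mul_one]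
      exact hC n
    have h4 : π * ‖(T ^ n) x₀‖ ^ 2 ≤ π * C ^ 2 := by gcongr
    exact absurd (hn.trans_le (h2.trans (ENNReal.ofReal_le_ofReal h4))) (lt_irrefl _)

end Pool.Agent.MP_f04e08_an

end MrgPart0

-- ======== part 1: formerly Pool.Agent.MP_f04e08_an.Integrals
section MrgPart1

set_option autoImplicit false

open MeasureTheory Set Metric Complex Filter
open scoped ENNReal Real Topology

namespace Pool.Agent.MP_f04e08_an

lemma lintegral_Ioo_inv {b c d : ℝ} (hb : 0 < b + c) (hcd : c ≤ d) :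
    ∫⁻ r in Ioo c d, ENNReal.ofReal (1 / (b + r)) = ENNReal.ofReal (Real.log ((b + d) / (b + c))) := by
  have hcont : ContinuousOn (fun r : ℝ => 1 / (b + r)) (Icc c d) := by
    apply ContinuousOn.div continuousOn_const (by fun_prop)
    intro r hr
    have := hr.1
    linarith
  rw [← ofReal_integral_eq_lintegral_ofReal]
  · congr 1
    rw [← integral_Ioc_eq_integral_Ioo, ← intervalIntegral.integral_of_le hcd,
      intervalIntegral.integral_comp_add_left (fun r => 1 / r) b, integral_one_div_of_pos hb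
      (by linarith)]
  · exact hcont.integrableOn_Icc.mono_set Ioo_subset_Icc_self
  · filter_upwards [ae_restrict_mem measurableSet_Ioo] with r hr
    have := hr.1
    apply div_nonneg zero_le_one
    linarith

lemma lintegral_inv_sq_le {b : ℝ} (hb : 0 < b) {ζ : ℂ} (hζ : ‖ζ‖ = 1) :
    ∫⁻ z in ball (0 : ℂ) 1, ENNReal.ofReal ((1 / (b + ‖z - ζ‖)) ^ 2) ≤
      ENNReal.ofReal (2 * π * Real.log ((b + 2) / b)) := by
  have hsub : ball (0 : ℂ) 1 ⊆ ball ζ 2 := by
    intro z hz
    rw [mem_ball_zero_iff] at hz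
    rw [mem_ball, dist_eq_norm]
    have := norm_sub_le z ζ
    linarith
  refine (lintegral_mono_set hsub).trans ?_
  have h1 : ∫⁻ z in ball ζ 2, ENNReal.ofReal ((1 / (b + ‖z - ζ‖)) ^ 2) =
      ∫⁻ z in ball (0 : ℂ) 2, ENNReal.ofReal ((1 / (b + ‖z‖)) ^ 2) := by
    rw [← lintegral_indicator measurableSet_ball, ← lintegral_indicator measurableSet_ball,
      ← lintegral_sub_right_eq_self ((ball (0 : ℂ) 2).indicator _) ζ]
    congr 1
    ext z
    simp only [indicator, mem_ball, dist_eq_norm, sub_zero]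
  rw [h1, lintegral_ball_radial (fun r => ENNReal.ofReal ((1 / (b + r)) ^ 2)) (by fun_prop),
    ENNReal.ofReal_mul (p := 2 * π) (by positivity)]
  gcongr
  have h2 := lintegral_Ioo_inv (b := b) (c := 0) (d := 2) (by linarith) (by norm_num)
  rw [add_zero] at h2
  rw [← h2]
  apply setLIntegral_mono' measurableSet_Ioo
  intro r hr
  have := hr.1
  rw [← ENNReal.ofReal_mul hr.1.le]
  apply ENNReal.ofReal_le_ofReal
  rw [sq, ← mul_assoc]
  apply mul_le_of_le_one_left (by positivity)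
  rw [mul_one_div, div_le_one (by linarith)]
  linarith

/-- The tail of the kernel series. -/
noncomputable def tailK (M : ℕ) (z : ℂ) : ℝ≥0∞ :=
  ∑' n : ℕ, ENNReal.ofReal (‖z‖ ^ (2 * (n + M)) / (((n + M : ℕ) : ℝ) + 1))

lemma measurable_tailK (M : ℕ) : Measurable (tailK M) := by
  unfold tailK
  apply Measurable.tsum
  intro n
  fun_prop

lemma kerK_le (M : ℕ) {z : ℂ} (hz : ‖z‖ ≤ 1) :
    kerK z ≤ ENNReal.ofReal (1 + Real.log M) + tailK M z := by
  unfold kerK tailK
  rw [← ENNReal.summable.sum_add_tsum_nat_add' (k := M)]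
  gcongr
  rw [← ENNReal.ofReal_sum_of_nonneg (fun n _ => by positivity)]
  apply ENNReal.ofReal_le_ofReal
  refine le_trans ?_ (harmonic_le_one_add_log M)
  rw [harmonic]
  push_cast
  apply Finset.sum_le_sum
  intro n _
  rw [← one_div]
  gcongr
  exact pow_le_one₀ (norm_nonneg _) hz

lemma lintegral_tailK {M : ℕ} (hM : 1 ≤ M) :
    ∫⁻ z in ball (0 : ℂ) 1, tailK M z ≤ ENNReal.ofReal (π / M) := by
  unfold tailK
  rw [lintegral_tsum (fun n => by fun_prop)]
  have h1 : ∀ n : ℕ, ∫⁻ z in ball (0 : ℂ) 1,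
      ENNReal.ofReal (‖z‖ ^ (2 * (n + M)) / (((n + M : ℕ) : ℝ) + 1)) =
      ENNReal.ofReal (π / (((n + M : ℕ) : ℝ) + 1) ^ 2) := by
    intro n
    have e : ∀ z : ℂ, ENNReal.ofReal (‖z‖ ^ (2 * (n + M)) / (((n + M : ℕ) : ℝ) + 1)) =
        ENNReal.ofReal (‖z‖ ^ (2 * (n + M))) * ENNReal.ofReal (1 / (((n + M : ℕ) : ℝ) + 1)) := by
      intro z
      rw [← ENNReal.ofReal_mul (by positivity), mul_one_div]
    simp only [e]
    rw [lintegral_mul_const _ (by fun_prop), lintegral_ball_norm_pow,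
      ← ENNReal.ofReal_mul (by positivity)]
    congr 1
    field_simp
  simp only [h1]
  have hM' : (1 : ℝ) ≤ M := by exact_mod_cast hM
  apply ENNReal.tsum_le_of_sum_range_le
  intro N
  rw [← ENNReal.ofReal_sum_of_nonneg (fun n _ => by positivity)]
  apply ENNReal.ofReal_le_ofReal
  have h2 : ∀ N : ℕ, ∑ n ∈ Finset.range N, π / (((n + M : ℕ) : ℝ) + 1) ^ 2 ≤
      π / M - π / ((N : ℝ) + M) := by
    intro N
    induction N with
    | zero => simp
    | succ N ih =>
      rw [Finset.sum_range_succ]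
      have h3 : (0 : ℝ) ≤ N := Nat.cast_nonneg N
      have h4 : π / (((N + M : ℕ) : ℝ) + 1) ^ 2 ≤ π / ((N : ℝ) + M) - π / (((N + 1 : ℕ) : ℝ) + M) := by
        push_cast
        have h5 : π / ((N : ℝ) + M) - π / ((N : ℝ) + 1 + M) =
            π / (((N : ℝ) + M) * ((N : ℝ) + M + 1)) := by
          field_simp
          ring
        rw [h5]
        apply div_le_div_of_nonneg_left Real.pi_pos.le (by positivity)
        nlinarith
      linarith
  refine (h2 N).trans ?_
  have : 0 ≤ π / ((N : ℝ) + M) := by positivity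
  linarith

lemma weighted_integral {L : ℝ} (hL : 1 ≤ L) {ζ : ℂ} (hζ : ‖ζ‖ = 1) :
    ∫⁻ z in ball (0 : ℂ) 1,
      ENNReal.ofReal ((1 / (L * (Real.exp (-L) ^ 2 + ‖z - ζ‖))) ^ 2) * kerK z ≤
      ENNReal.ofReal 200 := by
  set b := Real.exp (-L) ^ 2 with hb
  have hb0 : 0 < b := by positivity
  have hbe : b = Real.exp (-(2 * L)) := by
    rw [hb, ← Real.exp_nat_mul]
    congr 1
    push_cast
    ring
  set M := ⌈Real.exp (4 * L)⌉₊ with hM
  have hM1 : Real.exp (4 * L) ≤ M := Nat.le_ceil _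
  have hM2 : (M : ℝ) ≤ Real.exp (4 * L) + 1 := (Nat.ceil_lt_add_one (Real.exp_pos _).le).le
  have he : 1 ≤ Real.exp (4 * L) := Real.one_le_exp (by linarith)
  have hM3 : 1 ≤ M := by exact_mod_cast he.trans hM1
  have hlog : Real.log M ≤ 4 * L + 1 := by
    rw [Real.log_le_iff_le_exp (by linarith), Real.exp_add]
    have := Real.add_one_le_exp 1
    nlinarith
  have hlog2 : Real.log ((b + 2) / b) ≤ 2 * L + 2 := by
    rw [Real.log_le_iff_le_exp (by positivity), div_le_iff₀ hb0, hbe, ← Real.exp_add]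
    have h1 : Real.exp (-(2 * L)) ≤ 1 := Real.exp_le_one_iff.mpr (by linarith)
    have h2 := Real.add_one_le_exp 2
    have h3 : 2 * L + 2 + -(2 * L) = 2 := by ring
    rw [h3]
    linarith
  have hpt : ∀ z ∈ ball (0 : ℂ) 1, ENNReal.ofReal ((1 / (L * (b + ‖z - ζ‖))) ^ 2) * kerK z ≤
      ENNReal.ofReal (6 / L) * ENNReal.ofReal ((1 / (b + ‖z - ζ‖)) ^ 2) +
        ENNReal.ofReal (Real.exp (4 * L)) * tailK M z := by
    intro z hz
    have hz' := (mem_ball_zero_iff.mp hz).le
    have hn := norm_nonneg (z - ζ)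
    calc _ ≤ ENNReal.ofReal ((1 / (L * (b + ‖z - ζ‖))) ^ 2) *
          (ENNReal.ofReal (1 + Real.log M) + tailK M z) := by
          gcongr
          exact kerK_le M hz'
      _ = ENNReal.ofReal ((1 / (L * (b + ‖z - ζ‖))) ^ 2 * (1 + Real.log M)) +
          ENNReal.ofReal ((1 / (L * (b + ‖z - ζ‖))) ^ 2) * tailK M z := by
          rw [mul_add, ENNReal.ofReal_mul (by positivity)]
      _ ≤ _ := by
          rw [← ENNReal.ofReal_mul (by positivity)]
          gcongr ENNReal.ofReal ?_ + ENNReal.ofReal ?_ * _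
          · calc (1 / (L * (b + ‖z - ζ‖))) ^ 2 * (1 + Real.log M)
                ≤ (1 / (L * (b + ‖z - ζ‖))) ^ 2 * (6 * L) := by
                  gcongr
                  linarith
              _ = _ := by field_simp
          · calc (1 / (L * (b + ‖z - ζ‖))) ^ 2 ≤ (1 / b) ^ 2 := by
                  gcongr
                  nlinarith
              _ = Real.exp (4 * L) := by
                  rw [hbe, one_div, ← Real.exp_neg, ← Real.exp_nat_mul]
                  congr 1
                  push_cast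
                  ring
  refine (setLIntegral_mono' measurableSet_ball hpt).trans ?_
  rw [lintegral_add_left (by fun_prop), lintegral_const_mul _ (by fun_prop),
    lintegral_const_mul _ (measurable_tailK M)]
  calc _ ≤ ENNReal.ofReal (6 / L) * ENNReal.ofReal (2 * π * Real.log ((b + 2) / b)) +
        ENNReal.ofReal (Real.exp (4 * L)) * ENNReal.ofReal (π / M) := by
        gcongr
        · exact lintegral_inv_sq_le hb0 hζ
        · exact lintegral_tailK hM3
    _ ≤ ENNReal.ofReal 192 + ENNReal.ofReal 4 := by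
        rw [← ENNReal.ofReal_mul (by positivity), ← ENNReal.ofReal_mul (by positivity)]
        have hpi := Real.pi_le_four
        have hpi0 := Real.pi_pos
        gcongr
        · calc 6 / L * (2 * π * Real.log ((b + 2) / b)) ≤ 6 / L * (2 * 4 * (4 * L)) := by
                gcongr
                · apply Real.log_nonneg
                  rw [one_le_div hb0]
                  linarith
                · linarith
            _ = 192 := by field_simp; norm_num
        · calc Real.exp (4 * L) * (π / M) ≤ M * (π / M) := by gcongr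
            _ = π := by field_simp
            _ ≤ 4 := hpi
    _ ≤ _ := by
        rw [← ENNReal.ofReal_add (by norm_num) (by norm_num)]
        apply ENNReal.ofReal_le_ofReal
        norm_num

/-- The part of the disc between the two scales of a bump. -/
def annul (L : ℝ) (ζ : ℂ) : Set ℂ :=
  {z | ‖z‖ < 1 ∧ Real.exp (-L) ^ 2 < ‖z - ζ‖ ∧ ‖z - ζ‖ < Real.exp (-L)}

lemma measurableSet_annul (L : ℝ) (ζ : ℂ) : MeasurableSet (annul L ζ) := by
  apply IsOpen.measurableSet
  unfold annul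
  simp only [Set.ofPred_and]
  refine (isOpen_lt (by fun_prop) (by fun_prop)).inter
    ((isOpen_lt (by fun_prop) (by fun_prop)).inter (isOpen_lt (by fun_prop) (by fun_prop)))

lemma lower_integral {L : ℝ} (hL : 1 ≤ L) {θ₀ : ℝ} (h0 : 0 ≤ θ₀) (h1 : θ₀ ≤ 1) :
    ENNReal.ofReal (2 * L) ≤ ∫⁻ z in annul L (Complex.exp (θ₀ * I)),
      ENNReal.ofReal ((1 / ‖z - Complex.exp (θ₀ * I)‖) ^ 2) := by
  set ζ := Complex.exp (θ₀ * I) with hζ
  set t := Real.exp (-L) with ht
  have ht0 : 0 < t := Real.exp_pos _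
  have ht1 : t ≤ 1 := Real.exp_le_one_iff.mpr (by linarith)
  have ht2 : t ^ 2 ≤ t := by nlinarith
  set F : ℂ → ℝ≥0∞ := (annul L ζ).indicator fun z => ENNReal.ofReal ((1 / ‖z - ζ‖) ^ 2) with hF
  have hFm : Measurable F := Measurable.indicator (by fun_prop) (measurableSet_annul L ζ)
  rw [← lintegral_indicator (measurableSet_annul L ζ), ← hF, ← lintegral_sub_left_eq_self F ζ,
    lintegral_polar (fun w => F (ζ - w)) (hFm.comp (by fun_prop))]
  have hsub1 : Ioo (t ^ 2) t ⊆ Ioi (0 : ℝ) := fun r hr => lt_trans (by positivity) hr.1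
  have hsub2 : Ioo (θ₀ - 1) (θ₀ + 1) ⊆ Ioo (-π) π := by
    have := Real.pi_gt_three
    apply Ioo_subset_Ioo <;> linarith
  refine le_trans ?_ (lintegral_mono_set hsub1)
  have h2 := lintegral_Ioo_inv (b := 0) (c := t ^ 2) (d := t) (by positivity) ht2
  simp only [zero_add] at h2
  have h3 : Real.log (t / t ^ 2) = L := by
    have : t / t ^ 2 = Real.exp L := by
      rw [ht, Real.exp_neg]
      field_simp
    rw [this, Real.log_exp]
  rw [h3] at h2
  rw [ENNReal.ofReal_mul (by norm_num), ← h2, ← lintegral_const_mul _ (by fun_prop)]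
  apply setLIntegral_mono' measurableSet_Ioo
  intro r hr
  have hr0 : 0 < r := hsub1 hr
  refine le_trans ?_ (lintegral_mono_set hsub2)
  have h4 : ∀ θ ∈ Ioo (θ₀ - 1) (θ₀ + 1),
      ENNReal.ofReal r * F (ζ - (r : ℂ) * Complex.exp (θ * I)) = ENNReal.ofReal (1 / r) := by
    intro θ hθ
    have hn : ‖ζ - (r : ℂ) * Complex.exp (θ * I) - ζ‖ = r := by
      simp [Complex.norm_exp_ofReal_mul_I, abs_of_pos hr0]
    have hmem : ζ - (r : ℂ) * Complex.exp (θ * I) ∈ annul L ζ := by
      refine ⟨?_, by rw [hn]; exact hr.1, by rw [hn]; exact hr.2⟩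
      have e1 : ζ - (r : ℂ) * Complex.exp (θ * I) =
          ζ * (1 - (r : ℂ) * Complex.exp (((θ - θ₀ : ℝ) : ℂ) * I)) := by
        rw [mul_sub, mul_one, mul_left_comm, hζ, ← Complex.exp_add]
        congr 3
        push_cast
        ring
      rw [e1, norm_mul, hζ, Complex.norm_exp_ofReal_mul_I, one_mul]
      apply (pow_lt_one_iff_of_nonneg (norm_nonneg _) two_ne_zero).mp
      rw [Complex.sq_norm, Complex.normSq_apply]
      simp only [Complex.sub_re, Complex.one_re, Complex.re_ofReal_mul, Complex.exp_ofReal_mul_I_re,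
        Complex.sub_im, Complex.one_im, Complex.im_ofReal_mul, Complex.exp_ofReal_mul_I_im]
      have e2 := Real.sin_sq_add_cos_sq (θ - θ₀)
      have e3 := Real.one_sub_sq_div_two_le_cos (x := θ - θ₀)
      have e4 : (θ - θ₀) ^ 2 < 1 := by
        have := hθ.1
        have := hθ.2
        nlinarith
      have e5 : r < 1 := hr.2.trans_le ht1
      have e6 : (1 - r * Real.cos (θ - θ₀)) * (1 - r * Real.cos (θ - θ₀)) +
          (0 - r * Real.sin (θ - θ₀)) * (0 - r * Real.sin (θ - θ₀)) =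
          1 - r * (2 * Real.cos (θ - θ₀) - r) := by
        linear_combination r ^ 2 * e2
      rw [e6]
      have : 0 < r * (2 * Real.cos (θ - θ₀) - r) := mul_pos hr0 (by linarith)
      linarith
    rw [hF, indicator_of_mem hmem, hn, ← ENNReal.ofReal_mul hr0.le]
    congr 1
    field_simp
  rw [setLIntegral_congr_fun measurableSet_Ioo h4, setLIntegral_const, Real.volume_Ioo, mul_comm]
  apply le_of_eq
  congr 2
  ring

/-! Two telescoping sums. -/

lemma sum_inv_sq_le {R : ℝ} (hR : 1 ≤ R) (κ : ℝ) (N : ℕ) :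
    ∑ k ∈ Finset.range N, (1 / (R + |(k : ℝ) - κ|)) ^ 2 ≤ 4 / R := by
  set Φ : ℝ → ℝ := fun x => x / (R + |x|) with hΦ
  have hstep : ∀ x : ℝ, (1 / (R + |x|)) ^ 2 ≤ 2 / R * (Φ (x + 1) - Φ x) := by
    intro x
    have hx := abs_nonneg x
    have key : R / ((R + |x|) * (R + |x| + 1)) ≤ Φ (x + 1) - Φ x := by
      simp only [hΦ]
      rcases le_or_gt 0 x with h | h
      · rw [abs_of_nonneg h, abs_of_nonneg (by linarith)]
        apply le_of_eq
        field_simp
        ring
      · rcases le_or_gt x (-1) with h' | h'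
        · rw [abs_of_neg h, abs_of_nonpos (by linarith)]
          have e1 : 0 < R + -(x + 1) := by linarith
          have e2 : 0 < R + -x := by linarith
          have : (x + 1) / (R + -(x + 1)) - x / (R + -x) = R / ((R + -x) * (R + -(x + 1))) := by
            field_simp
            ring
          rw [this]
          apply div_le_div_of_nonneg_left (by linarith) (by positivity)
          nlinarith
        · rw [abs_of_neg h, abs_of_nonneg (by linarith)]
          have e1 : (x + 1) / (R + 1) ≤ (x + 1) / (R + (x + 1)) :=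
            div_le_div_of_nonneg_left (by linarith) (by linarith) (by linarith)
          have e2 : -x / (R + 1) ≤ -x / (R + -x) :=
            div_le_div_of_nonneg_left (by linarith) (by linarith) (by linarith)
          have e3 : R / ((R + -x) * (R + -x + 1)) ≤ 1 / (R + 1) := by
            rw [div_le_div_iff₀ (by apply mul_pos <;> linarith) (by linarith)]
            nlinarith
          have e4 : (x + 1) / (R + 1) + -x / (R + 1) = 1 / (R + 1) := by
            field_simp
            ring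
          have e5 : -x / (R + -x) = -(x / (R + -x)) := neg_div _ _
          linarith
    calc (1 / (R + |x|)) ^ 2 ≤ 2 / R * (R / ((R + |x|) * (R + |x| + 1))) := by
          have e : 2 / R * (R / ((R + |x|) * (R + |x| + 1))) = 2 / ((R + |x|) * (R + |x| + 1)) := by
            field_simp
          rw [e, div_pow, div_le_div_iff₀ (by positivity) (by positivity)]
          nlinarith
      _ ≤ _ := by gcongr
  have hb : ∀ x : ℝ, |Φ x| ≤ 1 := by
    intro x
    have hx := abs_nonneg x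
    simp only [hΦ]
    rw [abs_div, abs_of_pos (by linarith : 0 < R + |x|), div_le_one (by linarith)]
    linarith
  calc _ ≤ ∑ k ∈ Finset.range N, 2 / R * (Φ (((k + 1 : ℕ) : ℝ) - κ) - Φ ((k : ℝ) - κ)) := by
        apply Finset.sum_le_sum
        intro k _
        have := hstep ((k : ℝ) - κ)
        have e : ((k + 1 : ℕ) : ℝ) - κ = (k : ℝ) - κ + 1 := by push_cast; ring
        rwa [e]
    _ = 2 / R * (Φ ((N : ℝ) - κ) - Φ (((0 : ℕ) : ℝ) - κ)) := by
        rw [← Finset.mul_sum, Finset.sum_range_sub (fun k : ℕ => Φ ((k : ℝ) - κ))]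
    _ ≤ 2 / R * 2 := by
        gcongr
        have h1 := abs_le.mp (hb ((N : ℝ) - κ))
        have h2 := abs_le.mp (hb (((0 : ℕ) : ℝ) - κ))
        linarith [h1.2, h2.1]
    _ = _ := by ring

lemma sum_scale_le {N : ℝ} (hN : 0 < N) (J : ℕ) :
    ∑ j ∈ Finset.range J, (N * (1 / 8) ^ j) / (1 + N * (1 / 8) ^ j) ^ 2 ≤ 2 := by
  set Ξ : ℕ → ℝ := fun j => (N * (1 / 8) ^ j) / (1 + N * (1 / 8) ^ j) with hΞ
  have hstep : ∀ j : ℕ, (N * (1 / 8) ^ j) / (1 + N * (1 / 8) ^ j) ^ 2 ≤ 2 * (Ξ j - Ξ (j + 1)) := by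
    intro j
    simp only [hΞ]
    rw [pow_succ (1 / 8 : ℝ) j, ← mul_assoc]
    set t := N * (1 / 8) ^ j with ht
    have ht0 : 0 < t := by positivity
    have e : 2 * (t / (1 + t) - t * (1 / 8) / (1 + t * (1 / 8))) =
        (7 / 4 * t) / ((1 + t) * (1 + t * (1 / 8))) := by
      field_simp
      ring
    rw [e]
    apply div_le_div₀ (by positivity) (by linarith) (by positivity)
    nlinarith
  calc _ ≤ ∑ j ∈ Finset.range J, 2 * (Ξ j - Ξ (j + 1)) := Finset.sum_le_sum fun j _ => hstep j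
    _ = 2 * (Ξ 0 - Ξ J) := by rw [← Finset.mul_sum, Finset.sum_range_sub']
    _ ≤ 2 := by
        have h1 : Ξ 0 ≤ 1 := by
          simp only [hΞ]
          rw [div_le_one (by positivity)]
          linarith
        have h2 : 0 ≤ Ξ J := by
          simp only [hΞ]
          positivity
        linarith

end Pool.Agent.MP_f04e08_an

end MrgPart1

-- ======== part 2: formerly Pool.Agent.MP_f04e08_an.Final
section MrgPart2

set_option autoImplicit false

open MeasureTheory Set Metric Complex Filter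
open scoped ENNReal Real Topology

namespace Pool.Agent.MP_f04e08_an

lemma deriv_cesaro (n : ℕ) (l : ℂ) {z : ℂ} (hz : ‖z‖ < 1) :
    deriv (fun w => ((n : ℂ) + 1)⁻¹ * ∑ k ∈ Finset.range (n + 1), (l * phi w) ^ k) z =
      (((n : ℂ) + 1)⁻¹ * ∑ k ∈ Finset.range (n + 1), (k : ℂ) * (l * phi z) ^ (k - 1)) *
        (l * deriv phi z) := by
  have h1 := ((phi_facts hz).1.hasDerivAt).const_mul l
  have h2 : HasDerivAt (fun w => ∑ k ∈ Finset.range (n + 1), (l * phi w) ^ k)
      (∑ k ∈ Finset.range (n + 1), (k : ℂ) * (l * phi z) ^ (k - 1) * (l * deriv phi z)) z :=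
    HasDerivAt.fun_sum fun k _ => h1.fun_pow k
  rw [(h2.const_mul _).deriv, ← Finset.sum_mul, mul_assoc]

lemma region_bound (n : ℕ) (α : ℝ) (hα : |α| ≤ π) {j k : ℕ} (hk : k < 8 ^ j) {z : ℂ}
    (hz : z ∈ Reg j k) :
    rho j * ‖((n : ℂ) + 1)⁻¹ * ∑ i ∈ Finset.range (n + 1),
        (i : ℂ) * (Complex.exp (α * I) * phi z) ^ (i - 1)‖ ≤
      76800 / (1 + ((n : ℝ) + 1) * rho j) *
        (1 / ((1 + 1 / (((n : ℝ) + 1) * rho j)) + |(k : ℝ) - (-α / rho j)|)) := by
  have hr := rho_pos j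
  set N : ℝ := (n : ℝ) + 1 with hN
  have hN0 : 0 < N := by positivity
  set w := Complex.exp (α * I) * phi z with hw
  have hp := pos_est hk hz
  have hwn : ‖w‖ = ‖phi z‖ := by rw [hw, norm_mul, Complex.norm_exp_ofReal_mul_I, one_mul]
  have hw1 : ‖w‖ ≤ 1 := by rw [hwn]; linarith [hp.1]
  have hY : rho j / 16 ≤ 1 - ‖w‖ := by rw [hwn]; linarith [hp.1]
  have hYD : 1 - ‖w‖ ≤ ‖1 - w‖ := by simpa using norm_sub_norm_le (1 : ℂ) w
  set m := |(k : ℝ) - (-α / rho j)| with hm
  have hm0 : 0 ≤ m := abs_nonneg _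
  have hk1 : (k : ℝ) * rho j ≤ 1 := by
    rw [← rho_mul j]
    gcongr
    exact_mod_cast hk.le
  have hk0 : 0 ≤ (k : ℝ) * rho j := by positivity
  have hms : |(k : ℝ) * rho j - -α| = m * rho j := by
    rw [hm, ← abs_of_pos hr, ← abs_mul, abs_of_pos hr]
    congr 1
    field_simp
  have hch := (chord_ge ((k : ℝ) * rho j) (-α)).2 (by
    rw [abs_le] at hα ⊢
    constructor <;> linarith [hα.1, hα.2])
  rw [hms] at hch
  have hD1 : ‖1 - w‖ = ‖Complex.exp (((-α : ℝ) : ℂ) * I) - phi z‖ := by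
    have e : 1 - w = Complex.exp (α * I) * (Complex.exp (((-α : ℝ) : ℂ) * I) - phi z) := by
      rw [mul_sub, ← Complex.exp_add, hw]
      simp
    rw [e, norm_mul, Complex.norm_exp_ofReal_mul_I, one_mul]
  have hD2 : m * rho j / 4 - 9 * rho j ≤ ‖1 - w‖ := by
    rw [hD1]
    have h1 := norm_sub_le (phi z - Complex.exp (((-α : ℝ) : ℂ) * I))
      (phi z - Complex.exp (((k : ℝ) * rho j : ℝ) * I))
    have e : phi z - Complex.exp (((-α : ℝ) : ℂ) * I) -
        (phi z - Complex.exp (((k : ℝ) * rho j : ℝ) * I)) =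
        Complex.exp (((k : ℝ) * rho j : ℝ) * I) - Complex.exp (((-α : ℝ) : ℂ) * I) := by ring
    rw [e, norm_sub_rev (phi z)] at h1
    linarith [hp.2]
  have hD3 : rho j * (1 + m) / 600 ≤ ‖1 - w‖ := by nlinarith
  have hc := cesaro_deriv_bound n hw1
  rw [← hN] at hc
  set g := ‖((n : ℂ) + 1)⁻¹ * ∑ i ∈ Finset.range (n + 1), (i : ℂ) * w ^ (i - 1)‖ with hg
  have hg0 : 0 ≤ g := norm_nonneg _
  set t := N * rho j with ht
  have ht0 : 0 < t := by positivity
  have e1 : (1 + t) / 16 ≤ 1 + N * (1 - ‖w‖) := by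
    have : N * (rho j / 16) ≤ N * (1 - ‖w‖) := by gcongr
    linarith
  have e2 : (1 + t * (1 + m)) / 600 ≤ 1 + N * ‖1 - w‖ := by
    have : N * (rho j * (1 + m) / 600) ≤ N * ‖1 - w‖ := by gcongr
    have e : N * (rho j * (1 + m) / 600) = t * (1 + m) / 600 := by rw [ht]; ring
    linarith
  have e3 : (1 + t * (1 + m)) / 600 * ((1 + t) / 16) * g ≤ 8 * N := by
    refine le_trans ?_ hc
    gcongr
  have e4 : 76800 / (1 + t) * (1 / (1 + 1 / t + m)) =
      rho j * (8 * N / ((1 + t * (1 + m)) / 600 * ((1 + t) / 16))) := by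
    have : N = t / rho j := by rw [ht]; field_simp
    rw [this]
    field_simp
    ring
  rw [e4]
  gcongr
  rw [le_div_iff₀ (by positivity)]
  linarith

lemma region_integral (n : ℕ) (α : ℝ) (hα : |α| ≤ π) {j k : ℕ} (hk : k < 8 ^ j) :
    ∫⁻ z in Reg j k, ENNReal.ofReal (‖deriv (fun w => ((n : ℂ) + 1)⁻¹ *
        ∑ i ∈ Finset.range (n + 1), (Complex.exp (α * I) * phi w) ^ i) z‖ ^ 2) * kerK z ≤
      ENNReal.ofReal (200 * (19 * (76800 / (1 + ((n : ℝ) + 1) * rho j) *
        (1 / ((1 + 1 / (((n : ℝ) + 1) * rho j)) + |(k : ℝ) - (-α / rho j)|)))) ^ 2) := by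
  set A := 76800 / (1 + ((n : ℝ) + 1) * rho j) *
        (1 / ((1 + 1 / (((n : ℝ) + 1) * rho j)) + |(k : ℝ) - (-α / rho j)|)) with hA
  have hr := rho_pos j
  have hA0 : 0 ≤ A := by positivity
  have hmeas : Measurable fun z : ℂ =>
      ENNReal.ofReal ((1 / (LL j * (tt j ^ 2 + ‖z - ze j k‖))) ^ 2) * kerK z :=
    Measurable.mul (by fun_prop) measurable_kerK
  calc _ ≤ ∫⁻ z in Reg j k, ENNReal.ofReal ((19 * A) ^ 2) *
        (ENNReal.ofReal ((1 / (LL j * (tt j ^ 2 + ‖z - ze j k‖))) ^ 2) * kerK z) := by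
        apply setLIntegral_mono (hmeas.const_mul _)
        intro z hz
        rw [← mul_assoc, ← ENNReal.ofReal_mul (by positivity), ← mul_pow]
        gcongr
        rw [deriv_cesaro n _ hz.1, norm_mul, norm_mul (Complex.exp _),
          Complex.norm_exp_ofReal_mul_I, one_mul]
        have h1 := region_bound n α hα hk hz
        rw [← hA] at h1
        have h2 := der_upper hk hz
        have h3 : 0 ≤ 1 / (LL j * (tt j ^ 2 + ‖z - ze j k‖)) := by
          have := LL_pos j
          positivity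
        calc _ ≤ ‖((n : ℂ) + 1)⁻¹ * ∑ i ∈ Finset.range (n + 1),
              (i : ℂ) * (Complex.exp (α * I) * phi z) ^ (i - 1)‖ *
              (19 * rho j * (1 / (LL j * (tt j ^ 2 + ‖z - ze j k‖)))) := by gcongr
          _ = 19 * (rho j * ‖((n : ℂ) + 1)⁻¹ * ∑ i ∈ Finset.range (n + 1),
              (i : ℂ) * (Complex.exp (α * I) * phi z) ^ (i - 1)‖) *
              (1 / (LL j * (tt j ^ 2 + ‖z - ze j k‖))) := by ring
          _ ≤ _ := by gcongr
    _ ≤ ∫⁻ z in ball (0 : ℂ) 1, ENNReal.ofReal ((19 * A) ^ 2) *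
        (ENNReal.ofReal ((1 / (LL j * (tt j ^ 2 + ‖z - ze j k‖))) ^ 2) * kerK z) :=
        lintegral_mono_set fun z hz => mem_ball_zero_iff.mpr hz.1
    _ ≤ ENNReal.ofReal ((19 * A) ^ 2) * ENNReal.ofReal 200 := by
        rw [lintegral_const_mul _ hmeas]
        gcongr
        exact weighted_integral (one_le_LL j) (norm_ze j k)
    _ = _ := by
        rw [← ENNReal.ofReal_mul (by positivity), mul_comm]

lemma ukb_integral (n : ℕ) (l : ℂ) (hl : ‖l‖ = 1) :
    ∫⁻ z in ball (0 : ℂ) 1, ENNReal.ofReal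
      (‖deriv (fun w => ((n : ℂ) + 1)⁻¹ * ∑ k ∈ Finset.range (n + 1), (l * phi w) ^ k) z‖ ^ 2) *
        kerK z ≤ ENNReal.ofReal (1600 * (19 * 76800) ^ 2) := by
  obtain ⟨α, hα, rfl⟩ : ∃ α : ℝ, |α| ≤ π ∧ l = Complex.exp (α * I) := by
    refine ⟨Complex.arg l, Complex.abs_arg_le_pi l, ?_⟩
    have := Complex.norm_mul_exp_arg_mul_I l
    rw [hl] at this
    simpa using this.symm
  have hcov : ball (0 : ℂ) 1 ⊆ ⋃ j : ℕ, ⋃ k : Fin (8 ^ j), Reg j k := by
    intro z hz
    obtain ⟨j, k, hk, h⟩ := cover (mem_ball_zero_iff.mp hz)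
    exact mem_iUnion.mpr ⟨j, mem_iUnion.mpr ⟨⟨k, hk⟩, h⟩⟩
  refine (lintegral_mono_set hcov).trans ((lintegral_iUnion_le _ _).trans ?_)
  set N : ℝ := (n : ℝ) + 1 with hN
  have hN0 : 0 < N := by positivity
  have hlev : ∀ j : ℕ, ∫⁻ z in ⋃ k : Fin (8 ^ j), Reg j k, ENNReal.ofReal
      (‖deriv (fun w => ((n : ℂ) + 1)⁻¹ * ∑ k ∈ Finset.range (n + 1),
        (Complex.exp (α * I) * phi w) ^ k) z‖ ^ 2) * kerK z ≤
      ENNReal.ofReal (800 * (19 * 76800) ^ 2 * ((N * rho j) / (1 + N * rho j) ^ 2)) := by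
    intro j
    have hr := rho_pos j
    refine (lintegral_iUnion_le _ _).trans ?_
    refine (ENNReal.tsum_le_tsum fun k => region_integral n α hα k.2).trans ?_
    rw [tsum_fintype, ← ENNReal.ofReal_sum_of_nonneg (fun k _ => by positivity)]
    apply ENNReal.ofReal_le_ofReal
    rw [← hN, Fin.sum_univ_eq_sum_range (fun k : ℕ => 200 * (19 * (76800 / (1 + N * rho j) *
        (1 / ((1 + 1 / (N * rho j)) + |(k : ℝ) - (-α / rho j)|)))) ^ 2)]
    set t := N * rho j with ht
    have ht0 : 0 < t := by positivity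
    have h1 := sum_inv_sq_le (R := 1 + 1 / t) (by
      have : 0 < 1 / t := by positivity
      linarith) (-α / rho j) (8 ^ j)
    calc _ = 200 * (19 * (76800 / (1 + t))) ^ 2 * ∑ k ∈ Finset.range (8 ^ j),
          (1 / ((1 + 1 / t) + |(k : ℝ) - (-α / rho j)|)) ^ 2 := by
          rw [Finset.mul_sum]
          apply Finset.sum_congr rfl
          intro k _
          ring
      _ ≤ 200 * (19 * (76800 / (1 + t))) ^ 2 * (4 / (1 + 1 / t)) := by gcongr
      _ = 800 * (19 * 76800) ^ 2 * (t / (1 + t) ^ 2) * (1 / (1 + t)) := by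
          field_simp
          ring
      _ ≤ _ := by
          apply mul_le_of_le_one_right (by positivity)
          rw [div_le_one (by positivity)]
          linarith
  refine (ENNReal.tsum_le_tsum hlev).trans ?_
  apply ENNReal.tsum_le_of_sum_range_le
  intro J
  rw [← ENNReal.ofReal_sum_of_nonneg (fun j _ => by have := rho_pos j; positivity)]
  apply ENNReal.ofReal_le_ofReal
  rw [← Finset.mul_sum]
  have := sum_scale_le hN0 J
  unfold rho
  linarith

lemma annulus_integral (i : ℕ) {k : ℕ} (hk : k < 8 ^ (i + 2)) :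
    ENNReal.ofReal (2 * (9 / 12800) ^ 2 / LL (i + 2)) ≤
      ∫⁻ z in annul (LL (i + 2)) (ze (i + 2) k),
        ENNReal.ofReal (‖deriv (fun w => phi w ^ (8 ^ i)) z‖ ^ 2) := by
  set j := i + 2 with hj
  have hL := LL_pos j
  have h1 := lower_integral (one_le_LL j) (th_bound j k).1 (th_bound j k).2
  change ENNReal.ofReal (2 * LL j) ≤ ∫⁻ z in annul (LL j) (ze j k),
    ENNReal.ofReal ((1 / ‖z - ze j k‖) ^ 2) at h1
  calc ENNReal.ofReal (2 * (9 / 12800) ^ 2 / LL j)
      = ENNReal.ofReal ((9 / 12800 / LL j) ^ 2) * ENNReal.ofReal (2 * LL j) := by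
        rw [← ENNReal.ofReal_mul (by positivity)]
        congr 1
        field_simp
    _ ≤ ENNReal.ofReal ((9 / 12800 / LL j) ^ 2) * ∫⁻ z in annul (LL j) (ze j k),
          ENNReal.ofReal ((1 / ‖z - ze j k‖) ^ 2) := by gcongr
    _ = ∫⁻ z in annul (LL j) (ze j k), ENNReal.ofReal ((9 / 12800 / LL j) ^ 2) *
          ENNReal.ofReal ((1 / ‖z - ze j k‖) ^ 2) := by
        rw [lintegral_const_mul _ (by fun_prop)]
    _ ≤ _ := by
        apply setLIntegral_mono' (measurableSet_annul _ _)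
        intro z hz
        obtain ⟨hz1, hz2, hz3⟩ := hz
        have hR := mem_Reg_of_annulus hk hz1 hz2.le hz3.le
        rw [← ENNReal.ofReal_mul (by positivity), ← mul_pow]
        gcongr
        rw [(((phi_facts hz1).1.hasDerivAt).fun_pow (8 ^ i)).deriv, norm_mul, norm_mul, norm_pow,
          Complex.norm_natCast]
        have h2 := der_lower hk hR hz2.le hz3.le
        have h3 := (pos_est hk hR).2
        have h4 : 1 - 9 * rho j ≤ ‖phi z‖ := by
          have := norm_sub_norm_le (Complex.exp (((k : ℝ) * rho j : ℝ) * I)) (phi z)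
          rw [Complex.norm_exp_ofReal_mul_I, norm_sub_rev] at this
          linarith
        have h5 : (8 : ℝ) ^ i * rho j = 1 / 64 := by
          have := rho_mul j
          rw [hj, pow_add] at this
          rw [hj]
          linarith
        have h8 : (1 : ℝ) ≤ 8 ^ i := one_le_pow₀ (by norm_num)
        have hr := rho_pos j
        have h9 : rho j ≤ 1 / 64 := by nlinarith
        have h6 : (1 : ℝ) / 2 ≤ ‖phi z‖ ^ (8 ^ i - 1) := by
          have e1 : 1 + ((8 ^ i : ℕ) : ℝ) * (-(9 * rho j)) ≤ (1 + -(9 * rho j)) ^ (8 ^ i) :=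
            one_add_mul_le_pow (by linarith) _
          have e2 : (1 + -(9 * rho j)) ^ (8 ^ i) ≤ ‖phi z‖ ^ (8 ^ i) :=
            pow_le_pow_left₀ (by linarith) (by linarith) _
          have e3 : ‖phi z‖ ^ (8 ^ i) ≤ ‖phi z‖ ^ (8 ^ i - 1) :=
            pow_le_pow_of_le_one (norm_nonneg _) (norm_phi_le hz1) (Nat.sub_le _ _)
          push_cast at e1
          nlinarith
        have h7 : 0 < ‖z - ze j k‖ := lt_trans (by positivity) hz2
        calc 9 / 12800 / LL j * (1 / ‖z - ze j k‖)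
            = 8 ^ i * (1 / 2) * (9 / 100 * rho j * (1 / (LL j * ‖z - ze j k‖))) := by
              have : (8 : ℝ) ^ i * (1 / 2) * (9 / 100 * rho j * (1 / (LL j * ‖z - ze j k‖))) =
                  (8 ^ i * rho j) * (9 / 200 * (1 / (LL j * ‖z - ze j k‖))) := by ring
              rw [this, h5]
              field_simp
              norm_num
          _ ≤ _ := by
              push_cast
              gcongr

lemma energy_unbounded (C : ℝ) : ∃ n : ℕ, ENNReal.ofReal C < energy fun z => phi z ^ n := by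
  have h1 : Tendsto (fun i : ℕ => 2 * (9 / 12800 : ℝ) ^ 2 / 1000 * (8 / 7) ^ i) atTop atTop :=
    (tendsto_pow_atTop_atTop_of_one_lt (by norm_num)).const_mul_atTop (by norm_num)
  obtain ⟨i, hi⟩ := (h1.eventually (eventually_gt_atTop C)).exists
  refine ⟨8 ^ i, ?_⟩
  set j := i + 2 with hj
  have hL := LL_pos j
  have hdisj : Set.PairwiseDisjoint (↑(Finset.range (8 ^ j)) : Set ℕ)
      (fun k => annul (LL j) (ze j k)) := by
    intro k hk k' hk' hne
    rw [Function.onFun, Set.disjoint_left]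
    intro z hz hz'
    have h2 := far_of_near (Finset.mem_range.mp hk) (Finset.mem_range.mp hk') hne.symm (z := z)
      (by have := hz.2.2; have := tt_le_rr j; have := tt_pos j; unfold tt at *; linarith)
    have := hz'.2.2
    have := tt_le_rr j
    have := tt_pos j
    unfold tt at *
    linarith
  have hsub : (⋃ k ∈ Finset.range (8 ^ j), annul (LL j) (ze j k)) ⊆ ball (0 : ℂ) 1 := by
    intro z hz
    simp only [mem_iUnion] at hz
    obtain ⟨k, _, hz⟩ := hz
    exact mem_ball_zero_iff.mpr hz.1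
  unfold energy
  refine lt_of_lt_of_le ?_ (lintegral_mono_set hsub)
  rw [lintegral_biUnion_finset hdisj (fun k _ => measurableSet_annul _ _)]
  refine lt_of_lt_of_le ?_
    (Finset.sum_le_sum fun k hk => annulus_integral i (Finset.mem_range.mp hk))
  rw [← ENNReal.ofReal_sum_of_nonneg (fun k _ => by positivity), Finset.sum_const,
    Finset.card_range, nsmul_eq_mul, ENNReal.ofReal_lt_ofReal_iff (by positivity)]
  refine hi.trans_le ?_
  have e : ((8 ^ j : ℕ) : ℝ) * (2 * (9 / 12800) ^ 2 / LL (i + 2)) =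
      2 * (9 / 12800 : ℝ) ^ 2 / 1000 * (8 / 7) ^ i * (64 / 49) := by
    unfold LL
    rw [hj, div_pow (8 : ℝ)]
    push_cast
    field_simp
    ring
  rw [e]
  apply le_mul_of_one_le_right (by positivity) (by norm_num)

end Pool.Agent.MP_f04e08_an

end MrgPart2

-- marker of a merged file
example : 731051 + 543508 = 731051 + 543508 := rfl
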